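import Mathlib

set_option autoImplicit false

namespace Pool.Agent.Lib.MP_2c654c_co

open Function
open scoped commutatorElement

/-- Latin square root of the Cayley table. -/
def HasRoot (G : Type) [Group G] : Prop :=
  ∃ τ : G → Equiv.Perm G,
    (∀ g : G, τ g * τ g = Equiv.mulLeft g) ∧ ∀ x : G, Injective (fun g : G => τ g x)

/-- Transition system form. -/
def Sys (G : Type) [Group G] : Prop :=
  ∃ θ : G → G → G, (∀ x e, θ (x * e) (θ x e) = e) ∧ ∀ x, Injective (fun e => e * θ x e)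

theorem root_of_sys {G : Type} [Group G] [Finite G] (h : Sys G) : HasRoot G := by
  obtain ⟨θ, h1, h2⟩ := h
  have hb : ∀ x, Bijective (fun e => e * θ x e) := fun x => (Finite.injective_iff_bijective).1 (h2 x)
  let ε : G → G → G := fun x => (Equiv.ofBijective _ (hb x)).symm
  have hε : ∀ x z, ε x z * θ x (ε x z) = z := fun x z =>
    (Equiv.ofBijective _ (hb x)).apply_symm_apply z
  have hε' : ∀ x e, ε x (e * θ x e) = e := fun x e =>
    (Equiv.ofBijective _ (hb x)).symm_apply_apply e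
  let f : G → G → G := fun g x => x * ε x (x⁻¹ * g * x)
  have hf : ∀ g x, f g (f g x) = g * x := by
    intro g x
    obtain ⟨e, he⟩ : ∃ e, e = ε x (x⁻¹ * g * x) := ⟨_, rfl⟩
    have h3 : e * θ x e = x⁻¹ * g * x := by rw [he]; exact hε x _
    have h4 : (x * e)⁻¹ * g * (x * e) = θ x e * θ (x * e) (θ x e) := by
      rw [h1]
      have : θ x e = e⁻¹ * (x⁻¹ * g * x) := by rw [← h3]; group
      rw [this]; group
    show f g (x * ε x (x⁻¹ * g * x)) = g * x
    rw [← he]
    show x * e * ε (x * e) ((x * e)⁻¹ * g * (x * e)) = g * x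
    rw [h4, hε', mul_assoc, h3]; group
  have hinj : ∀ g, Injective (f g) := by
    intro g x y hxy
    have : f g (f g x) = f g (f g y) := by rw [hxy]
    rw [hf, hf] at this
    exact mul_left_cancel this
  refine ⟨fun g => Equiv.ofBijective (f g) ((Finite.injective_iff_bijective).1 (hinj g)), ?_, ?_⟩
  · intro g
    ext x
    exact hf g x
  · intro x g g' hg
    have h5 : x * ε x (x⁻¹ * g * x) = x * ε x (x⁻¹ * g' * x) := hg
    have h6 := mul_left_cancel h5
    have h7 : x⁻¹ * g * x = x⁻¹ * g' * x := by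
      rw [← hε x (x⁻¹ * g * x), h6, hε]
    exact mul_left_cancel (mul_right_cancel h7)

theorem sys_of_root {G : Type} [Group G] [Finite G] (h : HasRoot G) : Sys G := by
  obtain ⟨τ, h1, h2⟩ := h
  have hb : ∀ x, Bijective (fun g : G => τ g x) := fun x => (Finite.injective_iff_bijective).1 (h2 x)
  let γ : G → G → G := fun x => (Equiv.ofBijective _ (hb x)).symm
  have hγ : ∀ x y, τ (γ x y) x = y := fun x y => (Equiv.ofBijective _ (hb x)).apply_symm_apply y
  have hγ' : ∀ x g, γ x (τ g x) = g := fun x g => (Equiv.ofBijective _ (hb x)).symm_apply_apply g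
  have hsq : ∀ g x, τ g (τ g x) = g * x := by
    intro g x
    have := congrArg (fun σ : Equiv.Perm G => σ x) (h1 g)
    simpa using this
  refine ⟨fun x e => e⁻¹ * (x⁻¹ * γ x (x * e) * x), ?_, ?_⟩
  · intro x e
    obtain ⟨g, hg⟩ : ∃ g, g = γ x (x * e) := ⟨_, rfl⟩
    have h3 : τ g x = x * e := by rw [hg]; exact hγ _ _
    have h4 : x * e * (e⁻¹ * (x⁻¹ * g * x)) = τ g (x * e) := by
      rw [← h3, hsq, h3]; group
    show (e⁻¹ * (x⁻¹ * γ x (x * e) * x))⁻¹ * ((x * e)⁻¹ *
      γ (x * e) (x * e * (e⁻¹ * (x⁻¹ * γ x (x * e) * x))) * (x * e)) = e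
    rw [← hg, h4, hγ']; group
  · intro x e e' he
    have h5 : e * (e⁻¹ * (x⁻¹ * γ x (x * e) * x)) = e' * (e'⁻¹ * (x⁻¹ * γ x (x * e') * x)) := he
    rw [mul_inv_cancel_left, mul_inv_cancel_left] at h5
    have h6 : γ x (x * e) = γ x (x * e') := mul_left_cancel (mul_right_cancel h5)
    have h7 : x * e = x * e' := by rw [← hγ x (x * e), h6, hγ]
    exact mul_left_cancel h7

theorem exists_idem_pow {M : Type} [Monoid M] [Finite M] (u : M) :
    ∃ n : ℕ, 0 < n ∧ u ^ n * u ^ n = u ^ n := by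
  obtain ⟨i, j, hij, h⟩ := Finite.exists_ne_map_eq_of_infinite (fun n : ℕ => u ^ n)
  wlog hlt : i < j generalizing i j
  · exact this j i hij.symm h.symm (by omega)
  obtain ⟨d, rfl⟩ : ∃ d, j = i + (d + 1) := ⟨j - i - 1, by omega⟩
  have h0 : u ^ (i + (d + 1)) = u ^ i := h.symm
  have h1 : ∀ t k, u ^ (i + k + (d + 1) * t) = u ^ (i + k) := by
    intro t k
    induction t with
    | zero => simp
    | succ t ih =>
      have : i + k + (d + 1) * (t + 1) = (i + (d + 1)) + (k + (d + 1) * t) := by ring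
      rw [this, pow_add, h0, ← pow_add, ← add_assoc, ih]
  refine ⟨(d + 1) * (i + 1), by positivity, ?_⟩
  obtain ⟨k, hk⟩ : ∃ k, (d + 1) * (i + 1) = i + k := ⟨(d + 1) * (i + 1) - i, by
    have : i + 1 ≤ (d + 1) * (i + 1) := Nat.le_mul_of_pos_left _ (by omega)
    omega⟩
  rw [← pow_add]
  have := h1 (i + 1) k
  rw [← hk] at this
  exact this

theorem fitting {M : Type} [AddCommGroup M] [Finite M] (h2 : ∀ a : M, a + a = 0 → a = 0)
    (h3 : ∀ a : M, a + a + a = 0 → a = 0) (α : Module.End ℤ M) :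
    ∃ E : Module.End ℤ M, (∀ a, E (E a) = E a) ∧ (∀ a, α a + (E a + E a - a) = 0 → a = 0) ∧
      (∀ a, a + a - E a = 0 → a = 0) ∧ (∀ a, a + (a + a - E a) = 0 → a = 0) ∧
      (∀ a, (a + a - E a) + α a = 0 → a = 0) := by
  have : Finite (Module.End ℤ M) := DFunLike.finite _
  obtain ⟨n, hn, hE⟩ := exists_idem_pow (1 + α)
  obtain ⟨E, hEd⟩ : ∃ E, E = (1 + α) ^ n := ⟨_, rfl⟩
  rw [← hEd] at hE
  have hEE : ∀ a, E (E a) = E a := fun a => by
    have := congrArg (fun f : Module.End ℤ M => f a) hE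
    simpa using this
  have hc : ∀ a, E (α a) = α (E a) := fun a => by
    have : E * α = α * E := by
      rw [hEd]; exact (((Commute.one_left α).add_left (Commute.refl α)).pow_left n).eq
    have := congrArg (fun f : Module.End ℤ M => f a) this
    simpa using this
  have hk : ∀ a, E a + α (E a) = 0 → E a = 0 := by
    intro a ha
    obtain ⟨m, rfl⟩ : ∃ m, n = m + 1 := ⟨n - 1, by omega⟩
    have h5' : ∀ b, E b = ((1 + α) ^ m) ((1 + α) b) := fun b => by
      rw [hEd, pow_succ]; rfl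
    have h5 := h5' (E a)
    rw [← hEE, h5]
    have : (1 + α) (E a) = 0 := by simpa using ha
    rw [this, map_zero]
  have hev : ∀ (c : ℤ) a, (1 + α) a = c • a → ∀ m : ℕ, ((1 + α) ^ m) a = c ^ m • a := by
    intro c a ha m
    induction m with
    | zero => simp
    | succ m ih =>
      rw [pow_succ', Module.End.mul_apply, ih, map_zsmul, ha, smul_smul, pow_succ]
  have h2p : ∀ (m : ℕ) (a : M), (2 : ℤ) ^ m • a = 0 → a = 0 := by
    intro m
    induction m with
    | zero => intro a ha; simpa using ha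
    | succ m ih =>
      intro a ha
      apply ih
      apply h2
      rw [← ha, pow_succ', mul_smul, two_smul]
  refine ⟨E, hEE, ?_, ?_, ?_, ?_⟩
  · intro a ha
    have h5 := congrArg E ha
    rw [map_add, map_sub, map_add, hEE, hc, map_zero] at h5
    have h6 : E a = 0 := hk a (by rw [← h5]; abel)
    rw [h6] at ha
    have h7 : (1 + α) a = (2 : ℤ) • a := by
      have : α a = a := by rw [← sub_eq_zero, ← ha]; abel
      simp [this, two_smul]
    apply h2p n
    rw [← hev 2 a h7 n, ← hEd, h6]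
  · intro a ha
    have h5 := congrArg E ha
    rw [map_sub, map_add, hEE, map_zero] at h5
    have h6 : E a = 0 := by rw [← h5]; abel
    rw [h6, sub_zero] at ha
    exact h2 a ha
  · intro a ha
    have h5 := congrArg E ha
    rw [map_add, map_sub, map_add, hEE, map_zero] at h5
    have h6 : E a = 0 := h2 _ (by rw [← h5]; abel)
    rw [h6, sub_zero, ← add_assoc] at ha
    exact h3 a ha
  · intro a ha
    have h5 := congrArg E ha
    rw [map_add, map_sub, map_add, hEE, hc, map_zero] at h5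
    have h6 : E a = 0 := hk a (by rw [← h5]; abel)
    rw [h6, sub_zero] at ha
    have h7 : (1 + α) a = (-1 : ℤ) • a := by
      have : α a = - (a + a) := by rw [← sub_eq_zero, ← ha]; abel
      simp [this]
    have h8 := hev (-1) a h7 n
    rw [← hEd, h6] at h8
    rcases neg_one_pow_eq_or ℤ n with h | h
    · rw [h] at h8; simpa using h8.symm
    · rw [h] at h8; simpa using h8.symm

theorem fitting_mul {A : Type} [CommGroup A] [Finite A] (h2 : ∀ a : A, a * a = 1 → a = 1)
    (h3 : ∀ a : A, a * a * a = 1 → a = 1) (α : A →* A) :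
    (∃ g : A → A, Involutive g ∧ Injective (fun a => α a * g a)) ∧
    (∃ f : A → A, Bijective f ∧ Injective (fun a => a * f a) ∧ Injective (fun a => f a * α a)) := by
  obtain ⟨E, hE, h4, h5, h6, h7⟩ := fitting (M := Additive A) h2 h3
    (MonoidHom.toAdditive α).toIntLinearMap
  let P : A →* A := MonoidHom.toAdditive.symm E.toAddMonoidHom
  have hP : ∀ a, P (P a) = P a := hE
  have k4 : ∀ a : A, α a * (P a * P a / a) = 1 → a = 1 := h4
  have k5 : ∀ a : A, a * a / P a = 1 → a = 1 := h5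
  have k6 : ∀ a : A, a * (a * a / P a) = 1 → a = 1 := h6
  have k7 : ∀ a : A, (a * a / P a) * α a = 1 → a = 1 := h7
  let I : A →* A := MonoidHom.id A
  refine ⟨⟨fun a => P a * P a / a, ?_, ?_⟩, ⟨fun a => a * a / P a, ?_, ?_, ?_⟩⟩
  · intro a
    simp only [map_div, map_mul, hP]
    simp [div_eq_mul_inv, mul_assoc, mul_comm, mul_left_comm]
  · exact (injective_iff_map_eq_one (α * (P * P / I))).2 k4
  · exact (Finite.injective_iff_bijective).1 ((injective_iff_map_eq_one (I * I / P)).2 k5)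
  · exact (injective_iff_map_eq_one (I * (I * I / P))).2 k6
  · exact (injective_iff_map_eq_one ((I * I / P) * α)).2 k7

/-- Matching data between the fibres over `p` and `q`. -/
def Good {G Q : Type} [Group G] [Group Q] (π : G →* Q) (p q : Q) (b c : G → G) : Prop :=
  (∀ e, π e = p → π (b e) = q ∧ c (b e) = e) ∧ (∀ e, π e = q → π (c e) = p ∧ b (c e) = e) ∧
  (∀ e e', π e = p → π e' = p → e * b e = e' * b e' → e = e') ∧
  (∀ e e', π e = q → π e' = q → e * c e = e' * c e' → e = e')

theorem Good.symm {G Q : Type} [Group G] [Group Q] {π : G →* Q} {p q : Q} {b c : G → G}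
    (h : Good π p q b c) : Good π q p c b := ⟨h.2.1, h.1, h.2.2.2, h.2.2.1⟩

section
variable {G Q : Type} [Group G] [Group Q] [Finite G] (π : G →* Q) (hs : Surjective π)
  (hc : ∀ a b : π.ker, a * b = b * a) (h2 : ∀ a : π.ker, a * a = 1 → a = 1)
  (h3 : ∀ a : π.ker, a * a * a = 1 → a = 1)
include hs hc h2 h3

theorem fit_conj (z : G) :
    (∃ g : π.ker → π.ker, Involutive g ∧
      ∀ a a' : π.ker, z * a * z⁻¹ * g a = z * a' * z⁻¹ * g a' → a = a') ∧
    (∃ f : π.ker → π.ker, Bijective f ∧ Injective (fun a => a * f a) ∧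
      ∀ a a' : π.ker, f a * (z * a * z⁻¹) = f a' * (z * a' * z⁻¹) → a = a') := by
  let _ : CommGroup π.ker := { (inferInstance : Group π.ker) with mul_comm := hc }
  obtain ⟨⟨g, hg1, hg2⟩, ⟨f, hf1, hf2, hf3⟩⟩ :=
    fitting_mul (A := π.ker) h2 h3 (MulAut.conjNormal z : MulAut π.ker).toMonoidHom
  refine ⟨⟨g, hg1, fun a a' h => hg2 (Subtype.ext ?_)⟩, ⟨f, hf1, hf2, fun a a' h => hf3 (Subtype.ext ?_)⟩⟩
  · exact h
  · exact h

theorem good_loop (p : Q) : ∃ b : G → G, Good π p p b b := by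
  classical
  obtain ⟨x, rfl⟩ := hs p
  obtain ⟨⟨g, hg1, hg2⟩, -⟩ := fit_conj π hs hc h2 h3 x⁻¹
  have hm : ∀ e, π e = π x → x⁻¹ * e ∈ π.ker := fun e he => by simp [MonoidHom.mem_ker, he]
  let b : G → G := fun e => if h : x⁻¹ * e ∈ π.ker then x * g ⟨_, h⟩ else e
  have hb : ∀ a : π.ker, b (x * a) = x * g a := by
    intro a
    have h : x⁻¹ * (x * a) ∈ π.ker := by rw [inv_mul_cancel_left]; exact a.2
    have h' : (⟨_, h⟩ : π.ker) = a := Subtype.ext (inv_mul_cancel_left _ _)
    simp only [b, dif_pos h, h']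
  have hrep : ∀ e, π e = π x → ∃ a : π.ker, e = x * a := fun e he =>
    ⟨⟨_, hm e he⟩, (mul_inv_cancel_left _ _).symm⟩
  have k1 : ∀ e, π e = π x → π (b e) = π x ∧ b (b e) = e := by
    intro e he
    obtain ⟨a, rfl⟩ := hrep e he
    rw [hb, hb, hg1, map_mul, (g a).2, mul_one]
    exact ⟨rfl, rfl⟩
  have k2 : ∀ e e', π e = π x → π e' = π x → e * b e = e' * b e' → e = e' := by
    intro e e' he he' h
    obtain ⟨a, rfl⟩ := hrep e he
    obtain ⟨a', rfl⟩ := hrep e' he'
    rw [hb, hb] at h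
    rw [hg2 a a']
    have e1 : ∀ a : π.ker, x⁻¹ * a * x⁻¹⁻¹ * g a = (x * x)⁻¹ * (x * a * (x * g a)) := fun a => by
      group
    rw [e1, e1, h]
  exact ⟨b, k1, k1, k2, k2⟩

theorem good_pair (p q : Q) : ∃ b c : G → G, Good π p q b c := by
  classical
  obtain ⟨x, rfl⟩ := hs p
  obtain ⟨y, rfl⟩ := hs q
  obtain ⟨-, ⟨f, hf1, hf2, hf3⟩⟩ := fit_conj π hs hc h2 h3 (y * x)
  let F := Equiv.ofBijective f hf1
  let b : G → G := fun e => if h : x⁻¹ * e ∈ π.ker then f ⟨_, h⟩ * y else e
  let c : G → G := fun e => if h : e * y⁻¹ ∈ π.ker then x * F.symm ⟨_, h⟩ else e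
  have hb : ∀ a : π.ker, b (x * a) = f a * y := by
    intro a
    have h : x⁻¹ * (x * a) ∈ π.ker := by rw [inv_mul_cancel_left]; exact a.2
    have h' : (⟨_, h⟩ : π.ker) = a := Subtype.ext (inv_mul_cancel_left _ _)
    simp only [b, dif_pos h, h']
  have hc' : ∀ a : π.ker, c (f a * y) = x * a := by
    intro a
    have h : f a * y * y⁻¹ ∈ π.ker := by rw [mul_inv_cancel_right]; exact (f a).2
    have h' : (⟨_, h⟩ : π.ker) = F a := Subtype.ext (mul_inv_cancel_right _ _)
    simp only [c, dif_pos h, h', Equiv.symm_apply_apply]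
  have hx : ∀ e, π e = π x → ∃ a : π.ker, e = x * a := fun e he =>
    ⟨⟨x⁻¹ * e, by simp [MonoidHom.mem_ker, he]⟩, (mul_inv_cancel_left _ _).symm⟩
  have hy : ∀ e, π e = π y → ∃ a : π.ker, e = f a * y := fun e he => by
    obtain ⟨a, ha⟩ := hf1.2 ⟨e * y⁻¹, by simp [MonoidHom.mem_ker, he]⟩
    exact ⟨a, by rw [ha]; exact (inv_mul_cancel_right _ _).symm⟩
  refine ⟨b, c, ?_, ?_, ?_, ?_⟩
  · intro e he
    obtain ⟨a, rfl⟩ := hx e he
    rw [hb, hc', map_mul, (f a).2, one_mul]
    exact ⟨rfl, rfl⟩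
  · intro e he
    obtain ⟨a, rfl⟩ := hy e he
    rw [hc', hb, map_mul, a.2, mul_one]
    exact ⟨rfl, rfl⟩
  · intro e e' he he' h
    obtain ⟨a, rfl⟩ := hx e he
    obtain ⟨a', rfl⟩ := hx e' he'
    rw [hb, hb] at h
    rw [hf2 (a₁ := a) (a₂ := a') (Subtype.ext ?_)]
    have e1 : ∀ a : π.ker, ((a * f a : π.ker) : G) = x⁻¹ * (x * a * (f a * y)) * y⁻¹ := fun a => by
      rw [Subgroup.coe_mul]; group
    show ((a * f a : π.ker) : G) = ((a' * f a' : π.ker) : G)
    rw [e1, e1, h]
  · intro e e' he he' h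
    obtain ⟨a, rfl⟩ := hy e he
    obtain ⟨a', rfl⟩ := hy e' he'
    rw [hc', hc'] at h
    rw [hf3 a a']
    have e1 : ∀ a : π.ker, f a * (y * x * a * (y * x)⁻¹) = (f a * y * (x * a)) * (y * x)⁻¹ :=
      fun a => by group
    rw [e1, e1, h]

theorem good_family : ∃ β : Q → Q → G → G, ∀ p q, Good π p q (β p q) (β q p) := by
  classical
  let _ : LinearOrder Q := linearOrderOfSTO WellOrderingRel
  choose l hl using good_loop π hs hc h2 h3
  choose b c hbc using good_pair π hs hc h2 h3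
  refine ⟨fun p q => if p = q then l p else if p < q then b p q else c q p, fun p q => ?_⟩
  rcases lt_trichotomy p q with h | rfl | h
  · simp only [if_neg h.ne, if_neg h.ne', if_pos h, if_neg h.not_gt]
    exact hbc p q
  · simp only [if_true]
    exact hl p
  · simp only [if_neg h.ne, if_neg h.ne', if_pos h, if_neg h.not_gt]
    exact (hbc q p).symm

theorem sys_lift_abelian (h : Sys Q) : Sys G := by
  obtain ⟨θ, k1, k2⟩ := h
  obtain ⟨β, hβ⟩ := good_family π hs hc h2 h3
  refine ⟨fun x e => β (π e) (θ (π x) (π e)) e, fun x e => ?_, fun x e e' h => ?_⟩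
  · obtain ⟨a1, a2⟩ := (hβ (π e) (θ (π x) (π e))).1 e rfl
    show β (π (β (π e) (θ (π x) (π e)) e)) (θ (π (x * e)) (π (β (π e) (θ (π x) (π e)) e)))
      (β (π e) (θ (π x) (π e)) e) = e
    rw [a1, map_mul, k1, a2]
  · have h' : e * β (π e) (θ (π x) (π e)) e = e' * β (π e') (θ (π x) (π e')) e' := h
    have h4 := congrArg π h'
    rw [map_mul, map_mul, ((hβ _ _).1 e rfl).1, ((hβ _ _).1 e' rfl).1] at h4
    have h5 : π e = π e' := k2 (π x) h4
    rw [← h5] at h'
    exact (hβ _ _).2.2.1 e e' rfl h5.symm h'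

end

theorem eq_one_of_pow {A : Type} [Group A] [Finite A] {n : ℕ} (h : Nat.Coprime (Nat.card A) n)
    (a : A) (ha : a ^ n = 1) : a = 1 := by
  rw [← orderOf_eq_one_iff]
  exact Nat.eq_one_of_dvd_coprimes h (orderOf_dvd_natCard a) (orderOf_dvd_of_pow_eq_one ha)

theorem sys_congr {G Q : Type} [Group G] [Group Q] (e : G ≃* Q) (h : Sys Q) : Sys G := by
  obtain ⟨θ, k1, k2⟩ := h
  refine ⟨fun x a => e.symm (θ (e x) (e a)), fun x a => ?_, fun x a a' h => ?_⟩
  · simp [k1]
  · have h' := congrArg e h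
    simp only [map_mul, MulEquiv.apply_symm_apply] at h'
    exact e.injective (k2 (e x) h')

theorem sys_lift_soluble {G : Type} [Group G] [Finite G] (n : ℕ) :
    ∀ (N : Subgroup G) [N.Normal], Nat.card N = n → Group.IsSolvable N → Nat.Coprime (Nat.card N) 6 →
      Sys (G ⧸ N) → Sys G := by
  induction n using Nat.strong_induction_on with
  | _ n ih =>
    intro N _ hn hsol hcop hS
    by_cases hN : N = ⊥
    · subst hN
      exact sys_congr QuotientGroup.quotientBot.symm hS
    · have hle : ⁅N, N⁆ ≤ N := Subgroup.commutator_le_left N N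
      have hlt : ⁅N, N⁆ < N := by
        have : Nontrivial N := (Subgroup.nontrivial_iff_ne_bot N).2 hN
        have h1 := Group.IsSolvable.commutator_lt_top_of_nontrivial N
        refine lt_of_le_of_ne hle fun h => h1.ne ?_
        apply Subgroup.map_injective N.subtype_injective
        rw [Subgroup.map_subtype_commutator, h, ← MonoidHom.range_eq_map, Subgroup.range_subtype]
      have hdvd : Nat.card (⁅N, N⁆ : Subgroup G) ∣ Nat.card N := Subgroup.card_dvd_of_le hle
      refine ih (Nat.card (⁅N, N⁆ : Subgroup G)) ?_ ⁅N, N⁆ rfl ?_ (hcop.coprime_dvd_left hdvd) ?_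
      · rw [← hn]
        exact Set.Finite.card_lt_card (Set.toFinite _) hlt
      · exact Group.isSolvable_of_isSolvable_injective (Subgroup.inclusion_injective hle)
      · let π : G ⧸ ⁅N, N⁆ →* G ⧸ N := QuotientGroup.map ⁅N, N⁆ N (MonoidHom.id G) hle
        have hπ : ∀ x : G, π (x : G ⧸ ⁅N, N⁆) = (x : G ⧸ N) := fun x => rfl
        have hker : ∀ a : π.ker, ∃ x : N, (a : G ⧸ ⁅N, N⁆) = ((x : G) : G ⧸ ⁅N, N⁆) := by
          rintro ⟨a, ha⟩
          obtain ⟨x, rfl⟩ := QuotientGroup.mk_surjective a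
          rw [MonoidHom.mem_ker, hπ, QuotientGroup.eq_one_iff] at ha
          exact ⟨⟨x, ha⟩, rfl⟩
        have hpow : ∀ (k : ℕ), Nat.Coprime (Nat.card N) k → ∀ a : π.ker, a ^ k = 1 → a = 1 := by
          intro k hk a ha
          obtain ⟨x, hx⟩ := hker a
          have h1 : a ^ Nat.card N = 1 := by
            apply Subtype.ext
            rw [Subgroup.coe_pow, hx, ← QuotientGroup.mk_pow, ← Subgroup.coe_pow, pow_card_eq_one']
            rfl
          rw [← orderOf_eq_one_iff]
          exact Nat.eq_one_of_dvd_coprimes hk (orderOf_dvd_of_pow_eq_one h1)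
            (orderOf_dvd_of_pow_eq_one ha)
        refine sys_lift_abelian π ?_ ?_ ?_ ?_ hS
        · intro q
          obtain ⟨x, rfl⟩ := QuotientGroup.mk_surjective q
          exact ⟨x, rfl⟩
        · intro a b
          obtain ⟨x, hx⟩ := hker a
          obtain ⟨y, hy⟩ := hker b
          apply Subtype.ext
          rw [Subgroup.coe_mul, Subgroup.coe_mul, hx, hy, ← QuotientGroup.mk_mul,
            ← QuotientGroup.mk_mul, QuotientGroup.eq]
          have : ((x : G) * y)⁻¹ * (y * x) = ⁅(y : G)⁻¹, (x : G)⁻¹⁆ := by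
            rw [commutatorElement_def]; group
          rw [this]
          exact Subgroup.commutator_mem_commutator (N.inv_mem y.2) (N.inv_mem x.2)
        · intro a ha
          exact hpow 2 (hcop.coprime_dvd_right (by norm_num)) a (by rw [pow_two, ha])
        · intro a ha
          exact hpow 3 (hcop.coprime_dvd_right (by norm_num)) a (by rw [pow_succ, pow_two, ha])

theorem sys_prod {G H : Type} [Group G] [Group H] (hG : Sys G) (hH : Sys H) : Sys (G × H) := by
  obtain ⟨θ, k1, k2⟩ := hG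
  obtain ⟨η, l1, l2⟩ := hH
  refine ⟨fun x a => (θ x.1 a.1, η x.2 a.2), fun x a => ?_, fun x a a' h => ?_⟩
  · simp [k1, l1]
  · exact Prod.ext (k2 x.1 (congrArg Prod.fst h)) (l2 x.2 (congrArg Prod.snd h))

theorem sys_pi {ι : Type} {G : Type} [Group G] (hG : Sys G) : Sys (ι → G) := by
  obtain ⟨θ, k1, k2⟩ := hG
  refine ⟨fun x a i => θ (x i) (a i), fun x a => ?_, fun x a a' h => ?_⟩
  · funext i; exact k1 _ _
  · funext i; exact k2 (x i) (congrFun h i)

theorem sys_odd {H : Type} [Group H] [Finite H] (h : Odd (Nat.card H)) : Sys H := by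
  refine ⟨fun _ a => a, fun _ _ => rfl, fun _ a a' h' => ?_⟩
  have hc : (Nat.card H).Coprime 2 := Nat.coprime_two_right.2 h
  apply (powCoprime hc).injective
  simpa [pow_two] using h'

end Pool.Agent.Lib.MP_2c654c_co
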