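import Mathlib
import Pool.Agent.Lib.MP_2c654c_co.Lift

set_option autoImplicit false

namespace Pool.Agent.Lib.MP_2c654c_co

open Function

/-- Criterion: a commuting complete mapping whose nontrivial cycles generate bipartite Cayley
graphs gives a transition system. -/
theorem sys_of_bip {G : Type} [Group G] [Finite G] (σ : G → G) (L K : G → Subgroup G)
    (hσ : Injective σ) (hc : ∀ e, Commute e (σ e)) (hl : Injective fun e => e * σ e)
    (hL : ∀ e, L (σ e) = L e) (hK : ∀ e, K (σ e) = K e)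
    (hb : ∀ e, σ e ≠ e → e ∈ L e ∧ e ∉ K e ∧
      ∀ a ∈ L e, ∀ b ∈ L e, a ∉ K e → b ∉ K e → a * b ∈ K e) : Sys G := by
  classical
  let s : Equiv.Perm G := Equiv.ofBijective σ (Finite.injective_iff_bijective.1 hσ)
  have hs : ∀ e, s e = σ e := fun _ => rfl
  let χ : Subgroup G → Subgroup G → G → Prop := fun A B y =>
    ((y : G ⧸ A).out)⁻¹ * y ∈ B
  have hχ : ∀ e, σ e ≠ e → ∀ y, χ (L e) (K e) (y * e) ↔ ¬ χ (L e) (K e) y := by
    intro e he y
    obtain ⟨h1, h2, h3⟩ := hb e he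
    have hq : ((y * e : G) : G ⧸ L e) = (y : G ⧸ L e) := by
      rw [eq_comm, QuotientGroup.eq]; simpa using h1
    have ha : ((y : G ⧸ L e).out)⁻¹ * y ∈ L e := by
      rw [← QuotientGroup.eq]; simp
    show ((((y * e : G) : G ⧸ L e)).out)⁻¹ * (y * e) ∈ K e ↔ ¬ (((y : G ⧸ L e).out)⁻¹ * y ∈ K e)
    rw [hq, ← mul_assoc]
    constructor
    · intro h4 h5
      exact h2 ((Subgroup.mul_mem_cancel_left _ h5).1 h4)
    · intro h4
      exact h3 _ ha _ h1 h4 h2
  have hLs : ∀ e, L (s.symm e) = L e := fun e => by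
    rw [← hL (s.symm e), ← hs, Equiv.apply_symm_apply]
  have hKs : ∀ e, K (s.symm e) = K e := fun e => by
    rw [← hK (s.symm e), ← hs, Equiv.apply_symm_apply]
  refine ⟨fun x e => if χ (L e) (K e) x then s e else s.symm e, ?_, ?_⟩
  · intro x e
    by_cases he : σ e = e
    · have h1 : s e = e := he
      have h2 : s.symm e = e := by rw [Equiv.symm_apply_eq]; exact h1.symm
      simp only [h1, h2, ite_self]
    · by_cases hx : χ (L e) (K e) x
      · have h1 : ¬ χ (L e) (K e) (x * e) := fun h => (hχ e he x).1 h hx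
        simp only [if_pos hx]
        rw [hs, hL, hK, if_neg h1, ← hs, Equiv.symm_apply_apply]
      · have h1 : χ (L e) (K e) (x * e) := (hχ e he x).2 hx
        simp only [if_neg hx]
        rw [hLs, hKs, if_pos h1, Equiv.apply_symm_apply]
  · intro x
    let ρ : G → G := fun e => if χ (L e) (K e) x then e else s.symm e
    have hρ : ∀ e, e * (if χ (L e) (K e) x then s e else s.symm e) = ρ e * σ (ρ e) := by
      intro e
      by_cases hx : χ (L e) (K e) x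
      · simp only [ρ, if_pos hx, hs]
      · simp only [ρ, if_neg hx]
        rw [(hc (s.symm e)).eq, ← hs, Equiv.apply_symm_apply]
    intro e e' h
    have h' : ρ e * σ (ρ e) = ρ e' * σ (ρ e') := by
      rw [← hρ, ← hρ]; exact h
    have h2 : ρ e = ρ e' := hl h'
    by_cases hx : χ (L e) (K e) x <;> by_cases hx' : χ (L e') (K e') x
    · simpa only [ρ, if_pos hx, if_pos hx'] using h2
    · simp only [ρ, if_pos hx, if_neg hx'] at h2
      rw [h2, hLs, hKs] at hx; exact absurd hx hx'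
    · simp only [ρ, if_neg hx, if_pos hx'] at h2
      rw [← h2, hLs, hKs] at hx'; exact absurd hx' hx
    · simp only [ρ, if_neg hx, if_neg hx'] at h2
      exact s.symm.injective h2

/-- Elements of 2-power order. -/
def Two {G : Type} [Group G] (u : G) : Prop := ∃ k : ℕ, u ^ 2 ^ k = 1

/-- Elements of odd order. -/
def Od {G : Type} [Group G] (r : G) : Prop := ∃ m : ℕ, Odd m ∧ r ^ m = 1

section
variable {G : Type} [Group G]

theorem Two.one : Two (1 : G) := ⟨0, by simp⟩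

theorem Od.one : Od (1 : G) := ⟨1, odd_one, by simp⟩

theorem Two.mul {a b : G} (ha : Two a) (hb : Two b) (h : Commute a b) : Two (a * b) := by
  obtain ⟨k, hk⟩ := ha
  obtain ⟨l, hl⟩ := hb
  refine ⟨k + l, ?_⟩
  rw [h.mul_pow, pow_add, pow_mul, hk, mul_comm, pow_mul, hl]; simp

theorem Od.mul {a b : G} (ha : Od a) (hb : Od b) (h : Commute a b) : Od (a * b) := by
  obtain ⟨k, hk1, hk⟩ := ha
  obtain ⟨l, hl1, hl⟩ := hb
  refine ⟨k * l, hk1.mul hl1, ?_⟩
  rw [h.mul_pow, pow_mul, hk, mul_comm k l, pow_mul, hl]; simp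

theorem Two.inv {a : G} (ha : Two a) : Two a⁻¹ := by
  obtain ⟨k, hk⟩ := ha
  exact ⟨k, by rw [inv_pow, hk, inv_one]⟩

theorem Od.inv {a : G} (ha : Od a) : Od a⁻¹ := by
  obtain ⟨k, h1, hk⟩ := ha
  exact ⟨k, h1, by rw [inv_pow, hk, inv_one]⟩

theorem Od.zpow {a : G} (ha : Od a) (i : ℤ) : Od (a ^ i) := by
  obtain ⟨k, h1, hk⟩ := ha
  refine ⟨k, h1, ?_⟩
  rw [← zpow_natCast, ← zpow_mul, mul_comm, zpow_mul, zpow_natCast, hk, one_zpow]

theorem Two.map {H : Type} [Group H] (f : G →* H) {a : G} (ha : Two a) : Two (f a) := by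
  obtain ⟨k, hk⟩ := ha
  exact ⟨k, by rw [← map_pow, hk, map_one]⟩

theorem eq_one_of_two_od {a : G} (h1 : Two a) (h2 : Od a) : a = 1 := by
  obtain ⟨k, hk⟩ := h1
  obtain ⟨m, hm, hm'⟩ := h2
  have h3 : orderOf a ∣ 2 ^ k := orderOf_dvd_of_pow_eq_one hk
  have h4 : orderOf a ∣ m := orderOf_dvd_of_pow_eq_one hm'
  have h5 : Nat.Coprime (2 ^ k) m := (Nat.coprime_two_left.2 hm).pow_left k
  exact orderOf_eq_one_iff.1 (Nat.eq_one_of_dvd_coprimes h5 h3 h4)

theorem Od.sq_inj {a b : G} (ha : Od a) (hb : Od b) (h : a * a = b * b) : a = b := by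
  obtain ⟨k, ⟨i, rfl⟩, hk⟩ := ha
  obtain ⟨l, ⟨j, rfl⟩, hl⟩ := hb
  have h1 : a ^ ((2 * i + 1) * (2 * j + 1) + 1) = a := by rw [pow_succ, pow_mul, hk]; simp
  have h2 : b ^ ((2 * i + 1) * (2 * j + 1) + 1) = b := by
    rw [pow_succ, mul_comm (2 * i + 1), pow_mul, hl]; simp
  have h3 : (2 * i + 1) * (2 * j + 1) + 1 = 2 * (2 * i * j + i + j + 1) := by ring
  rw [← h1, ← h2, h3, pow_mul, pow_mul, sq, sq, h]

/-- Existence of the decomposition into odd part and 2-part. -/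
theorem exists_parts [Finite G] : ∃ N : ℕ, ∀ g : G, Two (g ^ N) ∧ Od (g * (g ^ N)⁻¹) ∧
    (Two g → g ^ N = g) ∧ (Od g → g ^ N = 1) := by
  obtain ⟨k, m, hm, hkm⟩ := Nat.exists_eq_two_pow_mul_odd (n := Nat.card G) Nat.card_pos.ne'
  have hco : Nat.Coprime (2 ^ k) m := (Nat.coprime_two_left.2 hm).pow_left k
  obtain ⟨N, hN1, hN2⟩ := Nat.chineseRemainder hco 1 0
  have hcard : ∀ g : G, g ^ (2 ^ k * m) = 1 := fun g => by rw [← hkm]; exact pow_card_eq_one'
  obtain ⟨c, hc⟩ : m ∣ N := (Nat.modEq_zero_iff_dvd).1 hN2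
  have h2 : ∀ g : G, Two (g ^ N) := fun g => ⟨k, by
    rw [← pow_mul, hc, mul_comm (m * c), ← mul_assoc, pow_mul, hcard, one_pow]⟩
  have h3 : ∀ g : G, Od (g * (g ^ N)⁻¹) := fun g => by
    refine ⟨m, hm, ?_⟩
    have h4 : (g ^ m) ^ N = (g ^ m) ^ 1 := by
      apply pow_eq_pow_of_modEq hN1
      rw [← pow_mul, mul_comm, hcard]
    have h5 : Commute g (g ^ N)⁻¹ := ((Commute.refl g).pow_right N).inv_right
    rw [h5.mul_pow, inv_pow, ← pow_mul, mul_comm N m, pow_mul, h4, pow_one, mul_inv_cancel]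
  refine ⟨N, fun g => ⟨h2 g, h3 g, fun hg => ?_, fun hg => ?_⟩⟩
  · have h5 : Commute g (g ^ N)⁻¹ := ((Commute.refl g).pow_right N).inv_right
    have := eq_one_of_two_od (hg.mul (h2 g).inv h5) (h3 g)
    exact (mul_inv_eq_one.1 this).symm
  · have : Od (g ^ N) := by simpa using hg.zpow (N : ℤ)
    exact eq_one_of_two_od (h2 g) this

/-- Local block data on a set `T` of nontrivial 2-elements. -/
structure Loc (T : Set G) (σ : G → G) (M K : G → Subgroup G) : Prop where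
  h1 : ∀ u ∈ T, σ u ∈ T
  h2 : ∀ u ∈ T, u * σ u ∈ T
  h3 : ∀ u ∈ T, u ∈ M u
  h4 : ∀ u ∈ T, σ u ∈ M u
  h5 : ∀ u ∈ T, u ∉ K u
  h6 : ∀ u ∈ T, M (σ u) = M u
  h7 : ∀ u ∈ T, K (σ u) = K u
  h8 : ∀ u ∈ T, ∀ m ∈ M u, Two m
  h9 : ∀ u ∈ T, ∀ a ∈ M u, ∀ b ∈ M u, a ∉ K u → b ∉ K u → a * b ∈ K u
  h10 : ∀ u ∈ T, ∀ x, Commute x u → ∀ m ∈ M u, Commute x m
  h11 : Set.InjOn σ T
  h12 : Set.InjOn (fun u => u * σ u) T

def Blocks (G : Type) [Group G] : Prop :=
  ∃ (σ : G → G) (M K : G → Subgroup G), Loc {u : G | Two u ∧ u ≠ 1} σ M K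

theorem blocks_glue {J : Type} (b : G → J)
    (h : ∀ j, ∃ (σ : G → G) (M K : G → Subgroup G),
      Loc {u : G | (Two u ∧ u ≠ 1) ∧ b u = j} σ M K) : Blocks G := by
  choose σ M K h using h
  have e1 : ∀ u, Two u ∧ u ≠ 1 → b (σ (b u) u) = b u := fun u hu => ((h (b u)).h1 u ⟨hu, rfl⟩).2
  have e2 : ∀ u, Two u ∧ u ≠ 1 → b (u * σ (b u) u) = b u :=
    fun u hu => ((h (b u)).h2 u ⟨hu, rfl⟩).2
  refine ⟨fun u => σ (b u) u, fun u => M (b u) u, fun u => K (b u) u,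
    fun u hu => ((h (b u)).h1 u ⟨hu, rfl⟩).1, fun u hu => ((h (b u)).h2 u ⟨hu, rfl⟩).1,
    fun u hu => (h (b u)).h3 u ⟨hu, rfl⟩, fun u hu => (h (b u)).h4 u ⟨hu, rfl⟩,
    fun u hu => (h (b u)).h5 u ⟨hu, rfl⟩, fun u hu => ?_, fun u hu => ?_,
    fun u hu => (h (b u)).h8 u ⟨hu, rfl⟩, fun u hu => (h (b u)).h9 u ⟨hu, rfl⟩,
    fun u hu => (h (b u)).h10 u ⟨hu, rfl⟩, fun u hu v hv huv => ?_, fun u hu v hv huv => ?_⟩
  · simp only [e1 u hu]; exact (h (b u)).h6 u ⟨hu, rfl⟩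
  · simp only [e1 u hu]; exact (h (b u)).h7 u ⟨hu, rfl⟩
  · have h0 : b u = b v := by rw [← e1 u hu, ← e1 v hv]; exact congrArg b huv
    have huv' : σ (b u) u = σ (b v) v := huv
    rw [← h0] at huv'
    exact (h (b u)).h11 ⟨hu, rfl⟩ ⟨hv, h0.symm⟩ huv'
  · have h0 : b u = b v := by rw [← e2 u hu, ← e2 v hv]; exact congrArg b huv
    have huv' : u * σ (b u) u = v * σ (b v) v := huv
    rw [← h0] at huv'
    exact (h (b u)).h12 ⟨hu, rfl⟩ ⟨hv, h0.symm⟩ huv'

theorem mem_mix {r : G} {M : Subgroup G} (h : ∀ m ∈ M, Commute r m) {x : G} :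
    x ∈ Subgroup.zpowers r ⊔ M ↔ ∃ (i : ℤ) (m : G), m ∈ M ∧ x = r ^ i * m := by
  constructor
  · intro hx
    rw [Subgroup.sup_eq_closure] at hx
    induction hx using Subgroup.closure_induction with
    | mem x hx =>
      rcases hx with ⟨i, rfl⟩ | hx
      · exact ⟨i, 1, M.one_mem, by simp⟩
      · exact ⟨0, x, hx, by simp⟩
    | one => exact ⟨0, 1, M.one_mem, by simp⟩
    | mul x y _ _ hx hy =>
      obtain ⟨i, m, hm, rfl⟩ := hx
      obtain ⟨j, n, hn, rfl⟩ := hy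
      refine ⟨i + j, m * n, M.mul_mem hm hn, ?_⟩
      have := ((h m hm).zpow_left j).eq
      rw [zpow_add, mul_assoc, ← mul_assoc m, ← this]; group
    | inv x _ hx =>
      obtain ⟨i, m, hm, rfl⟩ := hx
      refine ⟨-i, m⁻¹, M.inv_mem hm, ?_⟩
      have := (((h m hm).zpow_left (-i)).inv_right).eq
      rw [this]; group
  · rintro ⟨i, m, hm, rfl⟩
    exact Subgroup.mul_mem_sup (Subgroup.zpow_mem_zpowers r i) hm

theorem sys_of_blocks [Finite G] (h : Blocks G) : Sys G := by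
  classical
  obtain ⟨σ, M, K, h⟩ := h
  obtain ⟨N, hN⟩ := exists_parts (G := G)
  let u : G → G := fun g => g ^ N
  let r : G → G := fun g => g * (g ^ N)⁻¹
  have hu : ∀ g, Two (u g) := fun g => (hN g).1
  have hr : ∀ g, Od (r g) := fun g => (hN g).2.1
  have hru : ∀ g, r g * u g = g := fun g => by simp [r, u]
  have hcm : ∀ g, Commute (r g) (u g) := fun g =>
    ((Commute.refl g).pow_right N).mul_left ((Commute.refl _).inv_left)
  have huniq : ∀ a b, Od a → Two b → Commute a b → u (a * b) = b ∧ r (a * b) = a := by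
    intro a b ha hb hab
    have h1 : u (a * b) = b := by
      show (a * b) ^ N = b
      rw [hab.mul_pow, (hN a).2.2.2 ha, (hN b).2.2.1 hb, one_mul]
    refine ⟨h1, ?_⟩
    have := hru (a * b)
    rw [h1] at this
    exact mul_right_cancel this
  let s : G → G := fun v => if v = 1 then 1 else σ v
  have hs1 : s 1 = 1 := by simp [s]
  have hs : ∀ v, v ≠ 1 → s v = σ v := fun v hv => by simp [s, hv]
  have hst : ∀ v, Two v → Two (s v) := fun v hv => by
    by_cases h1 : v = 1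
    · rw [h1, hs1]; exact Two.one
    · rw [hs v h1]; exact (h.h1 v ⟨hv, h1⟩).1
  have hsc : ∀ v, Two v → ∀ x, Commute x v → Commute x (s v) := fun v hv x hx => by
    by_cases h1 : v = 1
    · rw [h1, hs1]; exact Commute.one_right x
    · rw [hs v h1]; exact h.h10 v ⟨hv, h1⟩ x hx _ (h.h4 v ⟨hv, h1⟩)
  have hsi : ∀ v w, Two v → Two w → s v = s w → v = w := by
    intro v w hv hw e
    by_cases h1 : v = 1 <;> by_cases h2 : w = 1
    · rw [h1, h2]
    · rw [h1, hs1, hs w h2] at e; exact absurd e.symm (h.h1 w ⟨hw, h2⟩).2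
    · rw [h2, hs1, hs v h1] at e; exact absurd e (h.h1 v ⟨hv, h1⟩).2
    · rw [hs v h1, hs w h2] at e; exact h.h11 ⟨hv, h1⟩ ⟨hw, h2⟩ e
  have hsl : ∀ v w, Two v → Two w → v * s v = w * s w → v = w := by
    intro v w hv hw e
    by_cases h1 : v = 1 <;> by_cases h2 : w = 1
    · rw [h1, h2]
    · rw [h1, hs1, hs w h2, one_mul] at e; exact absurd e.symm (h.h2 w ⟨hw, h2⟩).2
    · rw [h2, hs1, hs v h1, one_mul] at e; exact absurd e (h.h2 v ⟨hv, h1⟩).2
    · rw [hs v h1, hs w h2] at e; exact h.h12 ⟨hv, h1⟩ ⟨hw, h2⟩ e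
  have hτ : ∀ g, u (r g * s (u g)) = s (u g) ∧ r (r g * s (u g)) = r g := fun g =>
    huniq _ _ (hr g) (hst _ (hu g)) (hsc _ (hu g) _ (hcm g))
  refine sys_of_bip (fun g => r g * s (u g))
    (fun g => Subgroup.zpowers (r g) ⊔ M (u g))
    (fun g => Subgroup.zpowers (r g) ⊔ (M (u g) ⊓ K (u g))) ?_ ?_ ?_ ?_ ?_ ?_
  · intro g g' e
    have e' : r g * s (u g) = r g' * s (u g') := e
    have h1 : r g = r g' := by rw [← (hτ g).2, e', (hτ g').2]
    have h2 : s (u g) = s (u g') := by rw [← (hτ g).1, e', (hτ g').1]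
    rw [← hru g, ← hru g', h1, hsi _ _ (hu g) (hu g') h2]
  · intro g
    have h1 : Commute g (r g) :=
      (Commute.refl g).mul_right ((Commute.refl g).pow_right N).inv_right
    exact h1.mul_right (hsc _ (hu g) g ((Commute.refl g).pow_right N))
  · have key : ∀ g, g * (r g * s (u g)) = (r g * r g) * (u g * s (u g)) := fun g => by
      calc g * (r g * s (u g)) = (r g * u g) * (r g * s (u g)) := by rw [hru]
        _ = r g * (u g * r g) * s (u g) := by group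
        _ = (r g * r g) * (u g * s (u g)) := by rw [← (hcm g).eq]; group
    have key2 : ∀ g, u (g * (r g * s (u g))) = u g * s (u g) ∧
        r (g * (r g * s (u g))) = r g * r g := fun g => by
      rw [key]
      have c1 : Commute (r g) (u g * s (u g)) := (hcm g).mul_right (hsc _ (hu g) _ (hcm g))
      exact huniq _ _ ((hr g).mul (hr g) (Commute.refl _))
        ((hu g).mul (hst _ (hu g)) (hsc _ (hu g) _ (Commute.refl _))) (c1.mul_left c1)
    intro g g' e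
    have e' : g * (r g * s (u g)) = g' * (r g' * s (u g')) := e
    have h1 : r g * r g = r g' * r g' := by rw [← (key2 g).2, e', (key2 g').2]
    have h2 : u g * s (u g) = u g' * s (u g') := by rw [← (key2 g).1, e', (key2 g').1]
    rw [← hru g, ← hru g', (hr g).sq_inj (hr g') h1, hsl _ _ (hu g) (hu g') h2]
  · intro g
    show Subgroup.zpowers (r (r g * s (u g))) ⊔ M (u (r g * s (u g))) = _
    rw [(hτ g).1, (hτ g).2]
    by_cases h1 : u g = 1
    · rw [h1, hs1]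
    · rw [hs _ h1, h.h6 _ ⟨hu g, h1⟩]
  · intro g
    show Subgroup.zpowers (r (r g * s (u g))) ⊔
      (M (u (r g * s (u g))) ⊓ K (u (r g * s (u g)))) = _
    rw [(hτ g).1, (hτ g).2]
    by_cases h1 : u g = 1
    · rw [h1, hs1]
    · rw [hs _ h1, h.h6 _ ⟨hu g, h1⟩, h.h7 _ ⟨hu g, h1⟩]
  · intro g hg
    have h1 : u g ≠ 1 := by
      intro h1
      apply hg
      show r g * s (u g) = g
      rw [h1, hs1]
      conv_rhs => rw [← hru g, h1]
    have hT : u g ∈ {v : G | Two v ∧ v ≠ 1} := ⟨hu g, h1⟩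
    have c1 : ∀ m ∈ M (u g), Commute (r g) m := h.h10 _ hT _ (hcm g)
    have c2 : ∀ m ∈ M (u g) ⊓ K (u g), Commute (r g) m := fun m hm => c1 m hm.1
    have hmem : ∀ (i : ℤ) (m : G), m ∈ M (u g) →
        (r g ^ i * m ∈ Subgroup.zpowers (r g) ⊔ (M (u g) ⊓ K (u g)) ↔ m ∈ K (u g)) := by
      intro i m hm
      rw [mem_mix c2]
      constructor
      · rintro ⟨j, n, hn, e⟩
        have a1 := huniq _ _ ((hr g).zpow i) (h.h8 _ hT m hm) ((c1 m hm).zpow_left i)
        have a2 := huniq _ _ ((hr g).zpow j) (h.h8 _ hT n hn.1) ((c1 n hn.1).zpow_left j)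
        rw [← a1.1, e, a2.1]; exact hn.2
      · intro hk
        exact ⟨i, m, ⟨hm, hk⟩, rfl⟩
    have hg' : g = r g ^ (1 : ℤ) * u g := by rw [zpow_one, hru]
    refine ⟨(mem_mix c1).2 ⟨1, u g, h.h3 _ hT, hg'⟩, ?_, ?_⟩
    · intro hk
      have hk' : r g ^ (1 : ℤ) * u g ∈ Subgroup.zpowers (r g) ⊔ (M (u g) ⊓ K (u g)) := by
        rw [← hg']; exact hk
      exact h.h5 _ hT ((hmem 1 _ (h.h3 _ hT)).1 hk')
    · intro a ha b hb ha' hb'
      obtain ⟨i, m, hm, rfl⟩ := (mem_mix c1).1 ha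
      obtain ⟨j, n, hn, rfl⟩ := (mem_mix c1).1 hb
      have e : r g ^ i * m * (r g ^ j * n) = r g ^ (i + j) * (m * n) := by
        have := ((c1 m hm).zpow_left j).eq
        rw [zpow_add, mul_assoc, ← mul_assoc m, ← this]; group
      show r g ^ i * m * (r g ^ j * n) ∈ Subgroup.zpowers (r g) ⊔ (M (u g) ⊓ K (u g))
      rw [e, hmem _ _ ((M _).mul_mem hm hn)]
      exact h.h9 _ hT m hm n hn (fun hk => ha' ((hmem i m hm).2 hk))
        (fun hk => hb' ((hmem j n hn).2 hk))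

/-- Blocks pass to quotients by central subgroups of odd order. -/
theorem blocks_quot [Finite G] {Q : Type} [Group Q] (π : G →* Q) (hπ : Surjective π)
    (hc : ∀ z, π z = 1 → ∀ x, Commute z x) (ho : ∀ z, π z = 1 → Od z) (h : Blocks G) :
    Blocks Q := by
  obtain ⟨σ, M, K, h⟩ := h
  obtain ⟨N, hN⟩ := exists_parts (G := G)
  have hinj : ∀ a b, Two a → Two b → π a = π b → a = b := by
    intro a b ha hb e
    have h1 : π (a * b⁻¹) = 1 := by rw [map_mul, map_inv, e, mul_inv_cancel]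
    have h2 : Commute a b⁻¹ := by
      have := (hc _ h1 b⁻¹).mul_left ((Commute.refl b).inv_right)
      simpa using this
    exact mul_inv_eq_one.1 (eq_one_of_two_od (ha.mul hb.inv h2) (ho _ h1))
  have hlift : ∀ q : Q, ∃ a : G, Two q → Two a ∧ π a = q := by
    intro q
    obtain ⟨g, rfl⟩ := hπ q
    refine ⟨g ^ N, fun hq => ⟨(hN g).1, ?_⟩⟩
    have h1 : Od (π (g * (g ^ N)⁻¹)) := by
      obtain ⟨m, hm, e⟩ := (hN g).2.1
      exact ⟨m, hm, by rw [← map_pow, e, map_one]⟩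
    have h2 : Two (π (g * (g ^ N)⁻¹)) := by
      rw [map_mul]
      exact hq.mul ((hN g).1.inv.map π) ((((Commute.refl g).pow_right N).inv_right).map π)
    have h3 := eq_one_of_two_od h2 h1
    rw [map_mul, map_inv] at h3
    exact (mul_inv_eq_one.1 h3).symm
  choose s hs using hlift
  have hT : ∀ q, Two q ∧ q ≠ 1 → s q ∈ {u : G | Two u ∧ u ≠ 1} := fun q hq =>
    ⟨(hs q hq.1).1, fun e => hq.2 (by rw [← (hs q hq.1).2, e, map_one])⟩
  have hT' : ∀ a ∈ {u : G | Two u ∧ u ≠ 1}, Two (π a) ∧ π a ≠ 1 := fun a ha =>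
    ⟨ha.1.map π, fun e => ha.2 (hinj _ _ ha.1 Two.one (by rw [e, map_one]))⟩
  have hsπ : ∀ a, Two a → s (π a) = a := fun a ha =>
    hinj _ _ (hs _ (ha.map π)).1 ha (hs _ (ha.map π)).2
  have hmul : ∀ q, Two q → q * π (σ (s q)) = π (s q * σ (s q)) := fun q hq => by
    rw [map_mul, (hs q hq).2]
  have hK : ∀ q, Two q ∧ q ≠ 1 → ∀ m ∈ M (s q),
      (π m ∈ (M (s q) ⊓ K (s q)).map π ↔ m ∈ K (s q)) := by
    intro q hq m hm
    constructor
    · rintro ⟨n, hn, e⟩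
      rw [← hinj _ _ (h.h8 _ (hT q hq) n hn.1) (h.h8 _ (hT q hq) m hm) e]; exact hn.2
    · intro hk; exact ⟨m, ⟨hm, hk⟩, rfl⟩
  refine ⟨fun q => π (σ (s q)), fun q => (M (s q)).map π, fun q => (M (s q) ⊓ K (s q)).map π,
    fun q hq => hT' _ (h.h1 _ (hT q hq)), fun q hq => ?_, fun q hq => ?_, fun q hq => ?_,
    fun q hq => ?_, fun q hq => ?_, fun q hq => ?_, fun q hq => ?_, fun q hq => ?_,
    fun q hq => ?_, fun q hq q' hq' e => ?_, fun q hq q' hq' e => ?_⟩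
  · show q * π (σ (s q)) ∈ _
    rw [hmul q hq.1]; exact hT' _ (h.h2 _ (hT q hq))
  · exact ⟨s q, h.h3 _ (hT q hq), (hs q hq.1).2⟩
  · exact ⟨_, h.h4 _ (hT q hq), rfl⟩
  · intro hk
    have hk' : π (s q) ∈ (M (s q) ⊓ K (s q)).map π := by rw [(hs q hq.1).2]; exact hk
    exact h.h5 _ (hT q hq) ((hK q hq _ (h.h3 _ (hT q hq))).1 hk')
  · show (M (s (π (σ (s q))))).map π = _
    rw [hsπ _ (h.h1 _ (hT q hq)).1, h.h6 _ (hT q hq)]
  · show (M (s (π (σ (s q)))) ⊓ K (s (π (σ (s q))))).map π = _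
    rw [hsπ _ (h.h1 _ (hT q hq)).1, h.h6 _ (hT q hq), h.h7 _ (hT q hq)]
  · rintro _ ⟨m, hm, rfl⟩
    exact (h.h8 _ (hT q hq) m hm).map π
  · rintro _ ⟨a, ha, rfl⟩ _ ⟨b, hb, rfl⟩ ha' hb'
    rw [← map_mul]
    exact (hK q hq _ ((M _).mul_mem ha hb)).2 (h.h9 _ (hT q hq) a ha b hb
      (fun hk => ha' ((hK q hq a ha).2 hk)) (fun hk => hb' ((hK q hq b hb).2 hk)))
  · rintro x hx _ ⟨m, hm, rfl⟩
    obtain ⟨y, rfl⟩ := hπ x
    have h1 : y * s q * y⁻¹ = s q := by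
      apply hinj _ _ _ (hs q hq.1).1
      · rw [map_mul, map_mul, map_inv, (hs q hq.1).2, hx.eq]; group
      · obtain ⟨k, hk⟩ := (hs q hq.1).1
        exact ⟨k, by rw [conj_pow, hk]; group⟩
    have h2 : Commute y (s q) := by
      show y * s q = s q * y
      conv_rhs => rw [← h1]
      group
    exact (h.h10 _ (hT q hq) y h2 m hm).map π
  · have e1 : σ (s q) = σ (s q') :=
      hinj _ _ (h.h1 _ (hT q hq)).1 (h.h1 _ (hT q' hq')).1 e
    rw [← (hs q hq.1).2, ← (hs q' hq'.1).2, h.h11 (hT q hq) (hT q' hq') e1]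
  · have e0 : q * π (σ (s q)) = q' * π (σ (s q')) := e
    rw [hmul q hq.1, hmul q' hq'.1] at e0
    have e1 := hinj _ _ (h.h2 _ (hT q hq)).1 (h.h2 _ (hT q' hq')).1 e0
    rw [← (hs q hq.1).2, ← (hs q' hq'.1).2, h.h12 (hT q hq) (hT q' hq') e1]

end

end Pool.Agent.Lib.MP_2c654c_co
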