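import Mathlib

set_option autoImplicit false

namespace Pool.Agent.Lib.MP_2c654c_co

open Function

/-- Complete mapping of an additive group. -/
def CM (V : Type) [AddCommGroup V] : Prop :=
  ∃ φ : V → V, Injective φ ∧ Injective fun v => v + φ v

/-- A complete mapping each of whose cycles lies in an affine hyperplane missing the origin. -/
def Gad (V : Type) [AddCommGroup V] : Prop :=
  ∃ (σ : V → V) (l : V → V →+ ZMod 2), Injective σ ∧ (Injective fun v => v + σ v) ∧ σ 0 = 0 ∧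
    ∀ c, c ≠ 0 → l (σ c) = l c ∧ l c c = 1

theorem CM.congr {V W : Type} [AddCommGroup V] [AddCommGroup W] (e : V ≃+ W) (h : CM W) :
    CM V := by
  obtain ⟨φ, h1, h2⟩ := h
  refine ⟨fun v => e.symm (φ (e v)), e.symm.injective.comp (h1.comp e.injective), ?_⟩
  intro v w h
  have h3 := congrArg e h
  simp only [map_add, AddEquiv.apply_symm_apply] at h3
  exact e.injective (h2 h3)

theorem Gad.congr {V W : Type} [AddCommGroup V] [AddCommGroup W] (e : V ≃+ W) (h : Gad W) :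
    Gad V := by
  obtain ⟨φ, l, h1, h2, h3, h4⟩ := h
  refine ⟨fun v => e.symm (φ (e v)), fun v => (l (e v)).comp e.toAddMonoidHom,
    e.symm.injective.comp (h1.comp e.injective), ?_, by simp [h3], ?_⟩
  · intro v w h
    have h3 := congrArg e h
    simp only [map_add, AddEquiv.apply_symm_apply] at h3
    exact e.injective (h2 h3)
  · intro c hc
    have := h4 (e c) (by simpa using hc)
    refine ⟨?_, by simpa using this.2⟩
    simp only [AddEquiv.apply_symm_apply, this.1]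

theorem CM.prod {V W : Type} [AddCommGroup V] [AddCommGroup W] (h : CM V) (h' : CM W) :
    CM (V × W) := by
  obtain ⟨φ, h1, h2⟩ := h
  obtain ⟨ψ, h3, h4⟩ := h'
  refine ⟨fun v => (φ v.1, ψ v.2), fun v w h => ?_, fun v w h => ?_⟩
  · exact Prod.ext (h1 (congrArg Prod.fst h)) (h3 (congrArg Prod.snd h))
  · exact Prod.ext (h2 (congrArg Prod.fst h)) (h4 (congrArg Prod.snd h))

abbrev Z := ZMod 2
abbrev B2 := Z × Z
abbrev B3 := Z × B2
abbrev B4 := B2 × B2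
abbrev B5 := B3 × B2
abbrev B6 := B4 × B2

def e2 (v : B2) : ℕ := v.1.val + 2 * v.2.val
def e3 (v : B3) : ℕ := v.1.val + 2 * e2 v.2
def e4 (v : B4) : ℕ := e2 v.1 + 4 * e2 v.2
def e5 (v : B5) : ℕ := e3 v.1 + 8 * e2 v.2
def e6 (v : B6) : ℕ := e4 v.1 + 16 * e2 v.2
def d1 (n : ℕ) : Z := if n % 2 = 0 then 0 else 1
def d2 (n : ℕ) : B2 := (d1 n, d1 (n / 2))
def d3 (n : ℕ) : B3 := (d1 n, d2 (n / 2))
def d4 (n : ℕ) : B4 := (d2 n, d2 (n / 4))
def d5 (n : ℕ) : B5 := (d3 n, d2 (n / 8))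
def d6 (n : ℕ) : B6 := (d4 n, d2 (n / 16))

def dot2 (a : B2) : B2 →+ Z where
  toFun v := a.1 * v.1 + a.2 * v.2
  map_zero' := by simp
  map_add' v w := by simp only [Prod.fst_add, Prod.snd_add]; ring
def dot3 (a : B3) : B3 →+ Z where
  toFun v := a.1 * v.1 + dot2 a.2 v.2
  map_zero' := by simp
  map_add' v w := by simp only [Prod.fst_add, Prod.snd_add, map_add]; ring
def dot4 (a : B4) : B4 →+ Z where
  toFun v := dot2 a.1 v.1 + dot2 a.2 v.2
  map_zero' := by simp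
  map_add' v w := by simp only [Prod.fst_add, Prod.snd_add, map_add]; ring
def dot5 (a : B5) : B5 →+ Z where
  toFun v := dot3 a.1 v.1 + dot2 a.2 v.2
  map_zero' := by simp
  map_add' v w := by simp only [Prod.fst_add, Prod.snd_add, map_add]; ring
def dot6 (a : B6) : B6 →+ Z where
  toFun v := dot4 a.1 v.1 + dot2 a.2 v.2
  map_zero' := by simp
  map_add' v w := by simp only [Prod.fst_add, Prod.snd_add, map_add]; ring

def s2 (v : B2) : B2 := d2 (List.getD [0, 2, 3, 1] (e2 v) 0)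
def i2 (v : B2) : B2 := d2 (List.getD [0, 3, 1, 2] (e2 v) 0)
def j2 (v : B2) : B2 := d2 (List.getD [0, 2, 3, 1] (e2 v) 0)
theorem chk2 : ∀ v : B2, i2 (s2 v) = v ∧ j2 (v + s2 v) = v := by decide +kernel

def s3 (v : B3) : B3 := d3 (List.getD [0, 2, 4, 6, 3, 1, 7, 5] (e3 v) 0)
def i3 (v : B3) : B3 := d3 (List.getD [0, 5, 1, 4, 2, 7, 3, 6] (e3 v) 0)
def j3 (v : B3) : B3 := d3 (List.getD [0, 6, 7, 1, 5, 3, 2, 4] (e3 v) 0)
theorem chk3 : ∀ v : B3, i3 (s3 v) = v ∧ j3 (v + s3 v) = v := by decide +kernel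

def s4 (v : B4) : B4 := d4 (List.getD [0, 2, 3, 1, 8, 10, 11, 9, 13, 15, 14, 12, 6, 4, 5, 7] (e4 v) 0)
def i4 (v : B4) : B4 := d4 (List.getD [0, 3, 1, 2, 13, 14, 12, 15, 4, 7, 5, 6, 11, 8, 10, 9] (e4 v) 0)
def j4 (v : B4) : B4 := d4 (List.getD [0, 2, 3, 1, 10, 8, 9, 11, 15, 13, 12, 14, 4, 6, 7, 5] (e4 v) 0)
theorem chk4 : ∀ v : B4, i4 (s4 v) = v ∧ j4 (v + s4 v) = v := by decide +kernel

def s5 (v : B5) : B5 := d5 (List.getD [0, 4, 22, 31, 21, 15, 27, 28, 16, 11, 14, 3, 7, 26, 24, 9, 30, 8, 1, 13, 25, 18, 23, 2, 10, 6, 19, 20, 12, 17, 29, 5] (e5 v) 0)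
def i5 (v : B5) : B5 := d5 (List.getD [0, 18, 23, 11, 1, 31, 25, 12, 17, 15, 24, 9, 28, 19, 10, 5, 8, 29, 21, 26, 27, 4, 2, 22, 14, 20, 13, 6, 7, 30, 16, 3] (e5 v) 0)
def j5 (v : B5) : B5 := d5 (List.getD [0, 22, 9, 30, 10, 1, 15, 21, 11, 26, 5, 12, 29, 20, 16, 27, 28, 4, 24, 18, 2, 23, 14, 13, 8, 17, 31, 7, 3, 6, 19, 25] (e5 v) 0)
theorem chk5 : ∀ v : B5, i5 (s5 v) = v ∧ j5 (v + s5 v) = v := by decide +kernel

def s6 (v : B6) : B6 := d6 (List.getD [0, 42, 34, 41, 39, 16, 13, 48, 49, 20, 18, 59, 56, 1, 21, 7, 15, 61, 6, 4, 46, 12, 8, 30, 63, 5, 50, 29, 36, 38, 60, 58, 54, 31, 40, 32, 10, 3, 19, 27, 44, 57, 28, 22, 43, 47, 35, 62, 25, 2, 55, 33, 53, 17, 9, 26, 23, 24, 11, 52, 14, 51, 45, 37] (e6 v) 0)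
def i6 (v : B6) : B6 := d6 (List.getD [0, 13, 49, 37, 19, 25, 18, 15, 22, 54, 36, 58, 21, 6, 60, 16, 5, 53, 10, 38, 9, 14, 43, 56, 57, 48, 55, 39, 42, 27, 23, 33, 35, 51, 2, 46, 28, 63, 29, 4, 34, 3, 1, 44, 40, 62, 20, 45, 7, 8, 26, 61, 59, 52, 32, 50, 12, 41, 31, 11, 30, 17, 47, 24] (e6 v) 0)
def j6 (v : B6) : B6 := d6 (List.getD [0, 52, 45, 35, 40, 50, 27, 44, 15, 23, 34, 6, 13, 46, 61, 59, 41, 47, 51, 62, 18, 5, 32, 19, 10, 21, 63, 14, 25, 9, 22, 16, 2, 57, 30, 4, 53, 31, 37, 24, 26, 48, 3, 1, 17, 55, 36, 56, 11, 58, 60, 49, 12, 38, 42, 7, 28, 8, 20, 29, 39, 43, 33, 54] (e6 v) 0)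
theorem chk6 : ∀ v : B6, i6 (s6 v) = v ∧ j6 (v + s6 v) = v := by decide +kernel

def a4 (v : B4) : B4 := d4 (List.getD [0, 0, 0, 0, 13, 3, 5, 1, 13, 1, 3, 5, 5, 13, 3, 1] (e4 v) 0)
def a5 (v : B5) : B5 := d5 (List.getD [0, 29, 30, 1, 29, 1, 12, 4, 28, 1, 19, 1, 4, 20, 19, 1, 28, 28, 29, 20, 12, 29, 30, 30, 19, 12, 20, 12, 4, 28, 28, 1] (e5 v) 0)
def a6 (v : B6) : B6 := d6 (List.getD [0, 29, 11, 14, 38, 20, 29, 20, 11, 39, 29, 54, 9, 29, 9, 20, 20, 54, 29, 38, 39, 9, 11, 9, 14, 20, 45, 38, 29, 38, 9, 54, 39, 54, 11, 39, 29, 14, 38, 38, 11, 14, 29, 11, 11, 44, 39, 44, 20, 11, 45, 54, 54, 54, 39, 45, 9, 14, 54, 54, 9, 54, 44, 14] (e6 v) 0)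

theorem chk4' : ∀ v : B4, v.2 ≠ 0 → (s4 v).2 ≠ 0 ∧ (v + s4 v).2 ≠ 0 ∧ a4 (s4 v) = a4 v ∧
    dot4 (a4 v) v = 1 := by decide +kernel
theorem chk5' : s5 0 = 0 ∧ ∀ v : B5, v ≠ 0 → a5 (s5 v) = a5 v ∧ dot5 (a5 v) v = 1 := by
  decide +kernel
theorem chk6' : s6 0 = 0 ∧ ∀ v : B6, v ≠ 0 → a6 (s6 v) = a6 v ∧ dot6 (a6 v) v = 1 := by
  decide +kernel

theorem inj_of_chk {V : Type} [AddCommGroup V] {s i j : V → V}
    (h : ∀ v, i (s v) = v ∧ j (v + s v) = v) : Injective s ∧ Injective fun v => v + s v :=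
  ⟨LeftInverse.injective (g := i) fun v => (h v).1, LeftInverse.injective (g := j) fun v => (h v).2⟩

theorem cm2 : CM B2 := ⟨s2, inj_of_chk chk2⟩
theorem cm3 : CM B3 := ⟨s3, inj_of_chk chk3⟩
theorem gad5 : Gad B5 := ⟨s5, fun v => dot5 (a5 v), (inj_of_chk chk5).1, (inj_of_chk chk5).2,
  chk5'.1, fun c hc => ⟨by simp only [(chk5'.2 c hc).1], (chk5'.2 c hc).2⟩⟩
theorem gad6 : Gad B6 := ⟨s6, fun v => dot6 (a6 v), (inj_of_chk chk6).1, (inj_of_chk chk6).2,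
  chk6'.1, fun c hc => ⟨by simp only [(chk6'.2 c hc).1], (chk6'.2 c hc).2⟩⟩

theorem gad_step {W : Type} [AddCommGroup W] (h : CM W) (h' : Gad (W × B2)) :
    Gad ((W × B2) × B2) := by
  classical
  obtain ⟨φ, h1, h2⟩ := h
  obtain ⟨σ, l, h3, h4, h5, h6⟩ := h'
  obtain ⟨h7, h8⟩ := inj_of_chk chk4
  let pr : (W × B2) × B2 →+ B4 :=
    { toFun := fun v => (v.1.2, v.2), map_zero' := rfl, map_add' := fun _ _ => rfl }
  have hpr : ∀ v, pr v = (v.1.2, v.2) := fun _ => rfl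
  have hext : ∀ v w : (W × B2) × B2, v.1.1 = w.1.1 → pr v = pr w → v = w := fun v w e1 e2 =>
    Prod.ext (Prod.ext e1 (congrArg Prod.fst e2)) (congrArg (fun x : B4 => x.2) e2)
  let τ : (W × B2) × B2 → (W × B2) × B2 := fun v =>
    if v.2 = 0 then (σ v.1, 0) else ((φ v.1.1, (s4 (pr v)).1), (s4 (pr v)).2)
  have t0 : ∀ v : (W × B2) × B2, v.2 = 0 → τ v = (σ v.1, 0) := fun v hv => if_pos hv
  have t1 : ∀ v : (W × B2) × B2, v.2 ≠ 0 →
      τ v = ((φ v.1.1, (s4 (pr v)).1), (s4 (pr v)).2) := fun v hv => if_neg hv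
  refine ⟨τ, fun v => if v.2 = 0 then (l v.1).comp (AddMonoidHom.fst _ _)
    else (dot4 (a4 (pr v))).comp pr, ?_, ?_, ?_, ?_⟩
  · intro v w e
    by_cases hv : v.2 = 0 <;> by_cases hw : w.2 = 0
    · rw [t0 v hv, t0 w hw] at e
      exact Prod.ext (h3 (congrArg Prod.fst e)) (hv.trans hw.symm)
    · rw [t0 v hv, t1 w hw] at e
      exact absurd (congrArg Prod.snd e).symm (chk4' (pr w) hw).1
    · rw [t1 v hv, t0 w hw] at e
      exact absurd (congrArg Prod.snd e) (chk4' (pr v) hv).1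
    · rw [t1 v hv, t1 w hw] at e
      exact hext v w (h1 (congrArg (fun x => x.1.1) e)) (h7 (congrArg pr e))
  · intro v w e
    have e' : v + τ v = w + τ w := e
    by_cases hv : v.2 = 0 <;> by_cases hw : w.2 = 0
    · rw [t0 v hv, t0 w hw] at e'
      exact Prod.ext (h4 (congrArg Prod.fst e')) (hv.trans hw.symm)
    · rw [t0 v hv, t1 w hw] at e'
      have e2 : v.2 + 0 = (pr w + s4 (pr w)).2 := congrArg Prod.snd e'
      rw [hv, add_zero] at e2
      exact absurd e2.symm (chk4' (pr w) hw).2.1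
    · rw [t1 v hv, t0 w hw] at e'
      have e2 : (pr v + s4 (pr v)).2 = w.2 + 0 := congrArg Prod.snd e'
      rw [hw, add_zero] at e2
      exact absurd e2 (chk4' (pr v) hv).2.1
    · rw [t1 v hv, t1 w hw] at e'
      exact hext v w (h2 (congrArg (fun x => x.1.1) e')) (h8 (congrArg pr e'))
  · rw [t0 0 rfl]; simp [h5]
  · intro c hc
    by_cases hv : c.2 = 0
    · have hc1 : c.1 ≠ 0 := fun e => hc (Prod.ext e hv)
      rw [t0 c hv]
      simp only [if_pos hv, if_true, (h6 c.1 hc1).1, true_and]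
      exact (h6 c.1 hc1).2
    · have h9 := chk4' (pr c) hv
      have e1 : pr (τ c) = s4 (pr c) := by rw [t1 c hv]; rfl
      have e2 : (τ c).2 ≠ 0 := by rw [t1 c hv]; exact h9.1
      simp only [if_neg hv, if_neg e2, e1, h9.2.2.1, true_and]
      exact h9.2.2.2

open Module in
theorem cm_of_finrank (k : ℕ) : ∀ (V : Type) [AddCommGroup V] [Module Z V] [Module.Finite Z V],
    finrank Z V = k + 2 → CM V := by
  induction k using Nat.strong_induction_on with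
  | _ k ih =>
    intro V _ _ _ hV
    rcases k with _ | _ | k
    · exact CM.congr (LinearEquiv.ofFinrankEq V B2 (by rw [hV]; simp [Module.finrank_prod])).toAddEquiv cm2
    · exact CM.congr (LinearEquiv.ofFinrankEq V B3 (by rw [hV]; simp [Module.finrank_prod])).toAddEquiv cm3
    · exact CM.congr (LinearEquiv.ofFinrankEq V ((Fin (k + 2) → Z) × B2)
        (by rw [hV]; simp [Module.finrank_prod])).toAddEquiv ((ih k (by omega) _ (by simp)).prod cm2)

open Module in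
theorem gad_of_finrank (k : ℕ) : ∀ (V : Type) [AddCommGroup V] [Module Z V] [Module.Finite Z V],
    finrank Z V = k + 5 → Gad V := by
  induction k using Nat.strong_induction_on with
  | _ k ih =>
    intro V _ _ _ hV
    rcases k with _ | _ | k
    · exact Gad.congr (LinearEquiv.ofFinrankEq V B5 (by rw [hV]; simp [Module.finrank_prod])).toAddEquiv gad5
    · exact Gad.congr (LinearEquiv.ofFinrankEq V B6 (by rw [hV]; simp [Module.finrank_prod])).toAddEquiv gad6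
    · exact Gad.congr (LinearEquiv.ofFinrankEq V (((Fin (k + 3) → Z) × B2) × B2)
        (by rw [hV]; simp [Module.finrank_prod])).toAddEquiv
        (gad_step (cm_of_finrank (k + 1) _ (by simp)) (ih k (by omega) _ (by simp [Module.finrank_prod])))

theorem gad_field (F : Type) [Field F] [Finite F] [CharP F 2] (h : 32 ≤ Nat.card F) : Gad F := by
  let _ : Algebra Z F := ZMod.algebra F 2
  have h1 : Nat.card F = 2 ^ Module.finrank Z F := by
    rw [Module.natCard_eq_pow_finrank (K := Z)]; simp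
  have h2 : 5 ≤ Module.finrank Z F := by
    by_contra h3
    have : 2 ^ Module.finrank Z F ≤ 2 ^ 4 := Nat.pow_le_pow_right (by norm_num) (by omega)
    omega
  exact gad_of_finrank (Module.finrank Z F - 5) F (by omega)

end Pool.Agent.Lib.MP_2c654c_co
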