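import Mathlib
import Pool.Agent.Lib.MP_2c654c_co.Blocks
import Pool.Agent.Lib.MP_2c654c_co.Gadget

set_option autoImplicit false

namespace Pool.Agent.Lib.MP_2c654c_co

open Function Polynomial

section
variable {K A : Type} [CommRing K] [Ring A] [Algebra K A]

theorem unit_aeval {y : A} (hy : IsNilpotent y) {q : K[X]} (hq : IsUnit (q.coeff 0)) :
    IsUnit (aeval y q) := by
  have e : aeval y q = y * aeval y q.divX + algebraMap K A (q.coeff 0) := by
    conv_lhs => rw [← X_mul_divX_add q]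
    rw [map_add, map_mul, aeval_X, aeval_C]
  rw [e]
  have h1 : Commute y (aeval y q.divX) := by
    have := ((commute_X q.divX).map (aeval y))
    simpa using this
  exact (h1.isNilpotent_mul_right hy).isUnit_add_right_of_commute (hq.map (algebraMap K A))
    (Algebra.commutes _ _).symm

theorem commute_aeval {x y : A} (h : Commute x y) (q : K[X]) : Commute x (aeval y q) := by
  induction q using Polynomial.induction_on' with
  | add p q hp hq => rw [map_add]; exact hp.add_right hq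
  | monomial n a =>
    rw [aeval_monomial]
    exact Commute.mul_right (Algebra.commutes _ _).symm (h.pow_right n)

/-- The Cayley relation `u = (1 + δ y) / (1 + δ' y)` with `δ = δ' + 1`. -/
def Cay (d : K) (y u : A) : Prop := u * (1 + d • y) = 1 + (d + 1) • y

theorem unit_one_add {y : A} (hy : IsNilpotent y) (d : K) : IsUnit (1 + d • y) :=
  (hy.smul d).isUnit_one_add

variable {d : K}

theorem Cay.left_unique {y u v : A} (hy : IsNilpotent y) (h : Cay d y u) (h' : Cay d y v) :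
    u = v :=
  (unit_one_add hy d).mul_right_cancel (h.trans h'.symm)

theorem Cay.eq1 {y u : A} (h : Cay d y u) : (1 - d • (u - 1)) * y = u - 1 := by
  have h1 : u + d • (u * y) = 1 + (d • y + y) := by
    have := h
    rw [Cay, mul_add, mul_one, mul_smul_comm, add_smul, one_smul] at this
    exact this
  rw [sub_mul, one_mul, smul_mul_assoc, sub_mul, one_mul, smul_sub, eq_sub_of_add_eq' h1]
  abel

theorem Cay.eq2 {y u : A} (h : Cay d y u) : (1 - d • (u - 1)) * (1 + d • y) = 1 := by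
  rw [mul_add, mul_one, mul_smul_comm, h.eq1]; abel

theorem Cay.unit {y u : A} (hy : IsNilpotent y) (h : Cay d y u) : IsUnit (1 - d • (u - 1)) := by
  obtain ⟨w, hw⟩ := unit_one_add hy d
  have h1 := h.eq2
  rw [← hw] at h1
  rw [Units.eq_mul_inv_iff_mul_eq w |>.2 h1, one_mul]
  exact Units.isUnit _

theorem Cay.right_unique {y z u : A} (hy : IsNilpotent y) (h : Cay d y u) (h' : Cay d z u) :
    y = z :=
  (h.unit hy).mul_left_cancel (h.eq1.trans h'.eq1.symm)

theorem Cay.comm1 {x y u : A} (hy : IsNilpotent y) (h : Cay d y u) (hx : Commute x u) :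
    Commute x y := by
  have h1 : Commute x (u - 1) := hx.sub_right (Commute.one_right x)
  have h2 : Commute x (1 - d • (u - 1)) := (Commute.one_right x).sub_right (h1.smul_right d)
  apply (h.unit hy).mul_left_cancel
  rw [← mul_assoc, ← h2.eq, mul_assoc, h.eq1, ← mul_assoc, h.eq1, h1.eq]

theorem Cay.comm2 {x y u : A} (hy : IsNilpotent y) (h : Cay d y u) (hx : Commute x y) :
    Commute x u := by
  have h1 : ∀ c : K, Commute x (1 + c • y) := fun c =>
    (Commute.one_right x).add_right (hx.smul_right c)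
  apply (unit_one_add hy d).mul_right_cancel
  rw [mul_assoc, h, mul_assoc, (h1 d).eq, ← mul_assoc, h, (h1 _).eq]

theorem Cay.nil {y u : A} (hy : IsNilpotent y) (h : Cay d y u) : IsNilpotent (u - 1) := by
  have h0 : Commute y u := h.comm2 hy (Commute.refl y)
  have h1 : Commute y (u - 1) := h0.sub_right (Commute.one_right y)
  have h2 : Commute y (1 - d • (u - 1)) := (Commute.one_right y).sub_right (h1.smul_right d)
  rw [← h.eq1]
  exact h2.symm.isNilpotent_mul_left hy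

theorem exists_cay (d : K) {u : A} (hu : IsNilpotent (u - 1)) :
    ∃ y, IsNilpotent y ∧ Cay d y u := by
  have h0 : IsUnit (1 - d • (u - 1)) := (hu.smul d).isUnit_one_sub
  obtain ⟨w, hw⟩ := h0
  have h1 : Commute (w : A) (u - 1) := by
    rw [hw]; exact (Commute.one_left _).sub_left ((Commute.refl _).smul_left d)
  have h2 : Commute (w : A) u := by simpa using h1.add_right (Commute.one_right _)
  refine ⟨↑w⁻¹ * (u - 1), h1.units_inv_left.isNilpotent_mul_left hu, ?_⟩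
  apply (Units.isUnit w).mul_left_cancel
  have e : ∀ c : K, (w : A) * (1 + c • (↑w⁻¹ * (u - 1))) = w + c • (u - 1) := fun c => by
    rw [mul_add, mul_one, mul_smul_comm, Units.mul_inv_cancel_left]
  rw [← mul_assoc, h2.eq, mul_assoc, e, e, hw, sub_add_cancel, mul_one, add_smul, one_smul]
  abel

theorem exists_cay' (d : K) {y : A} (hy : IsNilpotent y) : ∃ u, Cay d y u := by
  obtain ⟨w, hw⟩ := unit_one_add hy d
  exact ⟨(1 + (d + 1) • y) * ↑w⁻¹, by rw [Cay, ← hw, Units.inv_mul_cancel_right]⟩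

theorem cay_zero (d : K) : Cay d (0 : A) 1 := by simp [Cay]

theorem Cay.ev {y u : A} {P : K[X]} (h : Cay d (aeval y P) u) :
    u * aeval y (1 + C d * P) = aeval y (1 + (C d + 1) * P) := by
  have e : ∀ c : K, aeval y (1 + C c * P) = 1 + c • aeval y P := fun c => by
    simp [Algebra.smul_def]
  have := e (d + 1)
  rw [map_add C, map_one] at this
  rw [this, e]; exact h

theorem Cay.of_ev {y u : A} {P : K[X]}
    (h : u * aeval y (1 + C d * P) = aeval y (1 + (C d + 1) * P)) : Cay d (aeval y P) u := by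
  have e : ∀ c : K, aeval y (1 + C c * P) = 1 + c • aeval y P := fun c => by
    simp [Algebra.smul_def]
  have := e (d + 1)
  rw [map_add C, map_one] at this
  rw [this, e] at h; exact h

theorem Cay.ev2 {y u v : A} {P Q : K[X]} (h : Cay d (aeval y P) u) (h' : Cay d (aeval y Q) v) :
    u * v * aeval y ((1 + C d * P) * (1 + C d * Q)) =
      aeval y ((1 + (C d + 1) * P) * (1 + (C d + 1) * Q)) := by
  rw [mul_comm (1 + C d * P), map_mul, mul_assoc, ← mul_assoc v, h'.ev, ← map_mul, mul_comm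
    (1 + (C d + 1) * Q), map_mul, ← mul_assoc, h.ev, ← map_mul]

theorem two_of_nil (h2 : (2 : A) = 0) {u : A} (hu : IsNilpotent (u - 1)) :
    ∃ k : ℕ, u ^ 2 ^ k = 1 := by
  have key : ∀ k : ℕ, (u - 1) ^ 2 ^ k = u ^ 2 ^ k - 1 := by
    intro k
    induction k with
    | zero => simp
    | succ k ih =>
      rw [pow_succ, pow_mul, pow_mul, ih]
      have : (u ^ 2 ^ k - 1) ^ 2 = (u ^ 2 ^ k) ^ 2 - 1 + 2 * (1 - u ^ 2 ^ k) := by noncomm_ring
      rw [this, h2]; simp
  obtain ⟨n, hn⟩ := hu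
  refine ⟨n, ?_⟩
  have h3 : (u - 1) ^ 2 ^ n = 0 := pow_eq_zero_of_le (Nat.lt_two_pow_self).le hn
  rw [key] at h3
  exact sub_eq_zero.1 h3

theorem nil_of_two (h2 : (2 : A) = 0) {u : A} {k : ℕ} (hu : u ^ 2 ^ k = 1) :
    IsNilpotent (u - 1) := by
  have key : ∀ k : ℕ, (u - 1) ^ 2 ^ k = u ^ 2 ^ k - 1 := by
    intro k
    induction k with
    | zero => simp
    | succ k ih =>
      rw [pow_succ, pow_mul, pow_mul, ih]
      have : (u ^ 2 ^ k - 1) ^ 2 = (u ^ 2 ^ k) ^ 2 - 1 + 2 * (1 - u ^ 2 ^ k) := by noncomm_ring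
      rw [this, h2]; simp
  exact ⟨2 ^ k, by rw [key, hu, sub_self]⟩

end

section
variable {F A : Type} [Field F] [Ring A] [Algebra F A]

/-- `y * p(y)`. -/
noncomputable def Yp (y : A) (p : F[X]) : A := aeval y (X * p)

theorem Yp_nil {y : A} (hy : IsNilpotent y) (p : F[X]) : IsNilpotent (Yp y p) := by
  rw [Yp, map_mul, aeval_X]
  exact (commute_aeval (Commute.refl y) p).isNilpotent_mul_right hy

theorem Yp_one (y : A) : Yp y (1 : F[X]) = y := by simp [Yp]

theorem Yp_zero (y : A) : Yp y (0 : F[X]) = 0 := by simp [Yp]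

theorem Yp_lead {y : A} (hy : IsNilpotent y) (h0 : y ≠ 0) {p q : F[X]} (h : Yp y p = Yp y q) :
    p.coeff 0 = q.coeff 0 := by
  by_contra hne
  have h1 : IsUnit (aeval y (p - q)) :=
    unit_aeval hy (by rw [coeff_sub]; exact (sub_ne_zero.2 hne).isUnit)
  have h2 : y * aeval y (p - q) = 0 := by
    have := sub_eq_zero.2 h
    rw [Yp, Yp, ← map_sub, ← mul_sub, map_mul, aeval_X] at this
    exact this
  exact h0 (h1.mul_left_eq_zero.1 h2)

theorem Yp_comp (y : A) (p q : F[X]) : Yp (Yp y p) q = Yp y (p * q.comp (X * p)) := by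
  rw [Yp, Yp, Yp, ← aeval_comp, mul_comp, X_comp, mul_assoc]

theorem rev_poly {p : F[X]} (hp : p.coeff 0 ≠ 0) (k : ℕ) :
    ∃ q r : F[X], X = X * (p * q.comp (X * p)) + X ^ (k + 1) * r := by
  induction k with
  | zero => exact ⟨0, 1, by simp⟩
  | succ k ih =>
    obtain ⟨q, r, h⟩ := ih
    obtain ⟨s, hs⟩ : X ∣ r - C (r.coeff 0 / (p.coeff 0) ^ (k + 1)) * p ^ (k + 1) := by
      rw [X_dvd_iff, coeff_sub, coeff_C_mul, coeff_zero_eq_eval_zero (p ^ (k + 1)), eval_pow,
        ← coeff_zero_eq_eval_zero]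
      field_simp
      ring
    refine ⟨q + C (r.coeff 0 / (p.coeff 0) ^ (k + 1)) * X ^ k, s, ?_⟩
    simp only [add_comp, mul_comp, C_comp, pow_comp, X_comp]
    linear_combination h + X ^ (k + 1) * hs

theorem Yp_rev {y : A} (hy : IsNilpotent y) {p : F[X]} (hp : p.coeff 0 ≠ 0) :
    ∃ q : F[X], y = Yp (Yp y p) q := by
  obtain ⟨n, hn⟩ := hy
  obtain ⟨q, r, h⟩ := rev_poly hp n
  refine ⟨q, ?_⟩
  have := congrArg (aeval y) h
  rw [map_add, aeval_X, map_mul _ (X ^ (n + 1)), map_pow, aeval_X, pow_succ, hn] at this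
  rw [Yp_comp, Yp]
  simpa using this

theorem range_Yp {y : A} (hy : IsNilpotent y) {p : F[X]} (hp : p.coeff 0 ≠ 0) :
    Set.range (Yp (F := F) (Yp y p)) = Set.range (Yp (F := F) y) := by
  apply Set.Subset.antisymm
  · rintro _ ⟨q, rfl⟩
    exact ⟨_, (Yp_comp y p q).symm⟩
  · rintro _ ⟨r, rfl⟩
    obtain ⟨q, hq⟩ := Yp_rev hy hp
    refine ⟨q * r.comp (X * q), ?_⟩
    rw [← Yp_comp, ← hq]

end

section
variable {F K A : Type} [Field F] [CommRing K] [Algebra F K] [Ring A] [Algebra K A]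
  [Algebra F A] [IsScalarTower F K A] {d : K} {β τ : F}

theorem Yp_eq (y : A) (p : F[X]) : Yp y p = aeval y (X * p.map (algebraMap F K)) := by
  rw [Yp, map_mul, map_mul, aeval_X, aeval_X, aeval_map_algebraMap]

theorem cay_mul (hβ : algebraMap F K β = (d + 1) * d) (hτ : algebraMap F K τ = (d + 1) + d)
    {y u v : A} (hy : IsNilpotent y) {p q : F[X]} (h : Cay d (Yp y p) u)
    (h' : Cay d (Yp y q) v) :
    ∃ r : F[X], Cay d (Yp y r) (u * v) ∧ r.coeff 0 = p.coeff 0 + q.coeff 0 := by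
  obtain ⟨n, hn⟩ := hy
  obtain ⟨t, ht⟩ : ∃ t : F[X], t = C β * (X * p) * (X * q) := ⟨_, rfl⟩
  obtain ⟨w, hw⟩ : ∃ w : F[X], w = ∑ i ∈ Finset.range (n + 1), t ^ i := ⟨_, rfl⟩
  have hw1 : (1 - t) * w = 1 - t ^ (n + 1) := by rw [hw]; exact mul_neg_geom_sum t (n + 1)
  have ht0 : t.coeff 0 = 0 := by simp [ht]
  have hw0 : w.coeff 0 = 1 := by
    have := congrArg (Polynomial.eval 0) hw1
    rw [coeff_zero_eq_eval_zero] at ht0 ⊢
    simpa [ht0] using this
  refine ⟨(p + q + C τ * X * p * q) * w, ?_, by simp [hw0]⟩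
  rw [Yp_eq (K := K)] at h h' ⊢
  have h3 := h.ev2 h'
  apply Cay.of_ev
  obtain ⟨P, hP⟩ : ∃ P, P = p.map (algebraMap F K) := ⟨_, rfl⟩
  obtain ⟨Q, hQ⟩ : ∃ Q, Q = q.map (algebraMap F K) := ⟨_, rfl⟩
  obtain ⟨W, hW⟩ : ∃ W, W = w.map (algebraMap F K) := ⟨_, rfl⟩
  obtain ⟨T, hT⟩ : ∃ T, T = t.map (algebraMap F K) := ⟨_, rfl⟩
  have hT1 : T = (C d + 1) * C d * (X * P) * (X * Q) := by
    rw [hT, ht, hP, hQ]; simp [hβ]
  have hW1 : (1 - T) * W = 1 - T ^ (n + 1) := by
    have := congrArg (Polynomial.map (algebraMap F K)) hw1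
    simpa [hT, hW] using this
  have hTn : aeval y (T ^ (n + 1)) = 0 := by
    have : T ^ (n + 1) = X ^ n * (X * ((C d + 1) * C d * P * (X * Q)) ^ (n + 1)) := by
      have : T = X * ((C d + 1) * C d * P * (X * Q)) := by rw [hT1]; ring
      rw [this, mul_pow]; ring
    rw [this, map_mul, map_pow, aeval_X, hn, zero_mul]
  have hR : ((p + q + C τ * X * p * q) * w).map (algebraMap F K) =
      (P + Q + (C d + 1 + C d) * X * P * Q) * W := by
    rw [hP, hQ, hW]; simp [hτ]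
  rw [← hP, ← hQ] at h3
  rw [hR]
  have e1 : 1 + C d * (X * ((P + Q + (C d + 1 + C d) * X * P * Q) * W)) =
      (1 + C d * (X * P)) * (1 + C d * (X * Q)) * W + T ^ (n + 1) := by
    linear_combination (-1 : K[X]) * hW1 - W * hT1
  have e2 : 1 + (C d + 1) * (X * ((P + Q + (C d + 1 + C d) * X * P * Q) * W)) =
      (1 + (C d + 1) * (X * P)) * (1 + (C d + 1) * (X * Q)) * W + T ^ (n + 1) := by
    linear_combination (-1 : K[X]) * hW1 - W * hT1
  rw [e1, e2, map_add, map_add, hTn, add_zero, add_zero, map_mul _ _ W, map_mul _ _ W,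
    ← mul_assoc, h3]

theorem cay_cross {y u v u' v' : A} (hy : IsNilpotent y) {p p' : F[X]} {ω c : F}
    (hω : 1 + ω ≠ 0) (h : Cay d (Yp y p) u) (h1 : Cay d (Yp y (C ω * p + C c)) v)
    (h' : Cay d (Yp y p') u') (h1' : Cay d (Yp y (C ω * p' + C c)) v') (e : u * v = u' * v') :
    Yp y p = Yp y p' := by
  rw [Yp_eq (K := K)] at h h' h1 h1' ⊢
  rw [Yp_eq (K := K)]
  have h3 := h.ev2 h1
  have h4 := h'.ev2 h1'
  simp only [Polynomial.map_add, Polynomial.map_mul, map_C] at h3 h4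
  obtain ⟨P, hP⟩ : ∃ P, P = p.map (algebraMap F K) := ⟨_, rfl⟩
  obtain ⟨P', hP'⟩ : ∃ P, P = p'.map (algebraMap F K) := ⟨_, rfl⟩
  obtain ⟨w, hw⟩ : ∃ w, w = algebraMap F K ω := ⟨_, rfl⟩
  obtain ⟨b, hb⟩ : ∃ b, b = algebraMap F K c := ⟨_, rfl⟩
  rw [← hP, ← hw, ← hb] at h3
  rw [← hP', ← hw, ← hb] at h4
  rw [← hP, ← hP']
  have h5 : aeval y ((1 + (C d + 1) * (X * P)) * (1 + (C d + 1) * (X * (C w * P + C b))) *
      ((1 + C d * (X * P')) * (1 + C d * (X * (C w * P' + C b))))) =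
      aeval y ((1 + (C d + 1) * (X * P')) * (1 + (C d + 1) * (X * (C w * P' + C b))) *
      ((1 + C d * (X * P)) * (1 + C d * (X * (C w * P + C b))))) := by
    rw [map_mul, map_mul _ (_ * _) (_ * _), ← h3, ← h4, e, mul_assoc, mul_assoc (u' * v'),
      ← map_mul, ← map_mul, mul_comm ((1 + C d * (X * P)) * _)]
  obtain ⟨H, hH⟩ : ∃ H : K[X], H = (C d + 1 + C d) * (C w * P' + (C w * P' + C b) + C w * (P - P'))
      + (C d + 1) * C d * ((C w * P' + (C w * P' + C b) + C w * (P - P')) *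
        (X * P' + X * (C w * P' + C b)) - (1 + C w) * (P' * (X * (C w * P' + C b)))) := ⟨_, rfl⟩
  have e1 : (1 + (C d + 1) * (X * P)) * (1 + (C d + 1) * (X * (C w * P + C b))) *
      ((1 + C d * (X * P')) * (1 + C d * (X * (C w * P' + C b)))) -
      (1 + (C d + 1) * (X * P')) * (1 + (C d + 1) * (X * (C w * P' + C b))) *
      ((1 + C d * (X * P)) * (1 + C d * (X * (C w * P + C b)))) =
      (X * P - X * P') * (1 + C w + X * H) := by
    rw [hH]; ring
  have h6 : IsUnit (aeval y (1 + C w + X * H)) := by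
    apply unit_aeval hy
    have : IsUnit (algebraMap F K (1 + ω)) := hω.isUnit.map _
    simpa [hw] using this
  have h7 := sub_eq_zero.2 h5
  rw [← map_sub, e1, map_mul, h6.mul_left_eq_zero, map_sub] at h7
  exact sub_eq_zero.1 h7

variable {G : Type} [Group G] [Finite G]

/-- The subgroups attached to a nilpotent element. -/
def Ksub (hβ : algebraMap F K β = (d + 1) * d) (hτ : algebraMap F K τ = (d + 1) + d)
    (ι : G →* A) {y : A} (hy : IsNilpotent y) (l : F →+ ZMod 2) : Subgroup G :=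
  let S : Submonoid G :=
    { carrier := {m | ∃ p : F[X], Cay d (Yp y p) (ι m) ∧ l (p.coeff 0) = 0}
      one_mem' := ⟨0, by rw [Yp_zero, map_one]; exact cay_zero d, by simp⟩
      mul_mem' := by
        rintro a b ⟨p, hp, hp'⟩ ⟨q, hq, hq'⟩
        obtain ⟨r, hr, hr'⟩ := cay_mul hβ hτ hy hp hq
        exact ⟨r, by rw [map_mul]; exact hr, by rw [hr', map_add, hp', hq', add_zero]⟩ }
  { toSubmonoid := S
    inv_mem' := by
      intro x hx
      have : x⁻¹ = x ^ (Nat.card G - 1) := by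
        rw [inv_eq_iff_mul_eq_one, ← pow_succ', Nat.sub_add_cancel Nat.card_pos]
        exact pow_card_eq_one'
      rw [this]
      exact S.pow_mem hx _ }

theorem mem_Ksub (hβ : algebraMap F K β = (d + 1) * d) (hτ : algebraMap F K τ = (d + 1) + d)
    (ι : G →* A) {y : A} (hy : IsNilpotent y) (l : F →+ ZMod 2) (m : G) :
    m ∈ Ksub hβ hτ ι hy l ↔ ∃ p : F[X], Cay d (Yp y p) (ι m) ∧ l (p.coeff 0) = 0 := Iff.rfl

theorem blocks_alg (hβ : algebraMap F K β = (d + 1) * d) (hτ : algebraMap F K τ = (d + 1) + d)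
    (h2 : (2 : A) = 0) (hF : Gad F) (ι : G →* A) (hι : Injective ι)
    (hcl : ∀ (g : G) (y : A), IsNilpotent y → Cay d y (ι g) → ∀ p : F[X],
      ∃ g' : G, Cay d (Yp y p) (ι g')) : Blocks G := by
  obtain ⟨σ, l, s1, s2, s3, s4⟩ := hF
  have s5 : ∀ c, c ≠ 0 → σ c ≠ 0 := fun c hc e => hc (s1 (e.trans s3.symm))
  have s6 : ∀ c, c ≠ 0 → c + σ c ≠ 0 := fun c hc e =>
    hc (s2 (show c + σ c = 0 + σ 0 by rw [e, s3, add_zero]))
  have htwo : ∀ (g : G) (y : A), IsNilpotent y → Cay d y (ι g) → Two g := by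
    intro g y hy h
    obtain ⟨k, hk⟩ := two_of_nil h2 (h.nil hy)
    exact ⟨k, hι (by rw [map_pow, hk, map_one])⟩
  have hyy : ∀ g : G, ∃ y : A, Two g → IsNilpotent y ∧ Cay d y (ι g) := by
    intro g
    by_cases hg : Two g
    · obtain ⟨k, hk⟩ := hg
      obtain ⟨y, hy⟩ := exists_cay d (nil_of_two h2 (u := ι g) (k := k)
        (by rw [← map_pow, hk, map_one]))
      exact ⟨y, fun _ => hy⟩
    · exact ⟨0, fun h => absurd h hg⟩
  choose yy hyy using hyy
  refine blocks_glue (fun g => Set.range (Yp (F := F) (yy g))) (fun S => ?_)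
  obtain ⟨T, hT⟩ : ∃ T : Set G,
    T = {u : G | (Two u ∧ u ≠ 1) ∧ Set.range (Yp (F := F) (yy u)) = S} := ⟨_, rfl⟩
  rw [← hT]
  rcases T.eq_empty_or_nonempty with hE | ⟨g0, hg0⟩
  · rw [hE]
    exact ⟨id, fun _ => ⊥, fun _ => ⊥, by simp, by simp, by simp, by simp, by simp, by simp,
      by simp, by simp, by simp, by simp, by simp, by simp⟩
  rw [hT] at hg0
  obtain ⟨⟨hg1, hg2⟩, hg3⟩ := hg0
  obtain ⟨y, hy0⟩ : ∃ y, y = yy g0 := ⟨_, rfl⟩
  rw [← hy0] at hg3
  have hy : IsNilpotent y := hy0 ▸ (hyy g0 hg1).1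
  have hyc : Cay d y (ι g0) := hy0 ▸ (hyy g0 hg1).2
  have hy1 : y ≠ 0 := by
    intro e
    rw [e] at hyc
    exact hg2 (hι ((hyc.left_unique IsNilpotent.zero (cay_zero d)).trans (map_one ι).symm))
  have hlead : ∀ (p q : F[X]) (u : A), Cay d (Yp y p) u → Cay d (Yp y q) u →
      p.coeff 0 = q.coeff 0 := fun p q u hp hq =>
    Yp_lead hy hy1 (hp.right_unique (Yp_nil hy p) hq)
  have hin : ∀ (u : G) (p : F[X]), p.coeff 0 ≠ 0 → Cay d (Yp y p) (ι u) → u ∈ T := by
    intro u p hp h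
    have t1 : Two u := htwo u _ (Yp_nil hy p) h
    rw [hT]
    refine ⟨⟨t1, fun e => hp ?_⟩, ?_⟩
    · rw [e, map_one] at h
      simpa using hlead p 0 1 h (by rw [Yp_zero]; exact cay_zero d)
    · rw [← h.right_unique (Yp_nil hy p) (hyy u t1).2, range_Yp hy hp, hg3]
  have hout : ∀ u : G, ∃ p : F[X], u ∈ T → p.coeff 0 ≠ 0 ∧ Cay d (Yp y p) (ι u) := by
    intro u
    by_cases hu : u ∈ T
    · have hu' := hu
      rw [hT] at hu'
      obtain ⟨⟨t1, -⟩, t3⟩ := hu'
      have t4 : yy u ∈ Set.range (Yp (F := F) y) := by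
        rw [hg3, ← t3]; exact ⟨1, Yp_one _⟩
      have t5 : y ∈ Set.range (Yp (F := F) (yy u)) := by
        rw [t3, ← hg3]; exact ⟨1, Yp_one _⟩
      obtain ⟨p, hp⟩ := t4
      obtain ⟨q, hq⟩ := t5
      refine ⟨p, fun _ => ⟨fun e => ?_, hp ▸ (hyy u t1).2⟩⟩
      rw [← hp, Yp_comp] at hq
      have := Yp_lead hy hy1 (hq.trans (Yp_one y).symm)
      simp [e] at this
    · exact ⟨0, fun h => absurd h hu⟩
  choose P hP using hout
  let Q : G → F[X] := fun u =>
    C (σ 1) * P u + C (σ ((P u).coeff 0) - σ 1 * (P u).coeff 0)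
  have hQ0 : ∀ u, (Q u).coeff 0 = σ ((P u).coeff 0) := fun u => by simp [Q]
  choose s hs using fun u => hcl g0 y hy hyc (Q u)
  have hsT : ∀ u ∈ T, s u ∈ T := fun u hu =>
    hin _ _ (by rw [hQ0]; exact s5 _ (hP u hu).1) (hs u)
  have hsP : ∀ u ∈ T, (P (s u)).coeff 0 = σ ((P u).coeff 0) := fun u hu => by
    rw [← hQ0]; exact hlead _ _ _ (hP _ (hsT u hu)).2 (hs u)
  refine ⟨s, fun _ => Ksub hβ hτ ι hy 0, fun u => Ksub hβ hτ ι hy (l ((P u).coeff 0)),
    hsT, fun u hu => ?_, fun u hu => ⟨P u, (hP u hu).2, rfl⟩, fun u _ => ⟨Q u, hs u, rfl⟩,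
    fun u hu => ?_, fun _ _ => rfl, fun u hu => ?_, fun u _ m hm => ?_, fun u _ => ?_,
    fun u hu x hx m hm => ?_, fun u hu v hv e => ?_, fun u hu v hv e => ?_⟩
  · obtain ⟨r, hr, hr'⟩ := cay_mul hβ hτ hy (hP u hu).2 (hs u)
    exact hin _ r (by rw [hr', hQ0]; exact s6 _ (hP u hu).1) (by rw [map_mul]; exact hr)
  · rintro ⟨p, hp, hp'⟩
    rw [hlead _ _ _ hp (hP u hu).2, (s4 _ (hP u hu).1).2] at hp'
    exact one_ne_zero hp'
  · show Ksub hβ hτ ι hy (l ((P (s u)).coeff 0)) = _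
    rw [hsP u hu, (s4 _ (hP u hu).1).1]
  · obtain ⟨p, hp, -⟩ := hm
    exact htwo m _ (Yp_nil hy p) hp
  · rintro a ⟨p, hp, -⟩ b ⟨q, hq, -⟩ ha hb
    obtain ⟨r, hr, hr'⟩ := cay_mul hβ hτ hy hp hq
    refine ⟨r, by rw [map_mul]; exact hr, ?_⟩
    have z : ∀ i j : ZMod 2, i ≠ 0 → j ≠ 0 → i + j = 0 := by decide
    rw [hr', map_add]
    exact z _ _ (fun e => ha ⟨p, hp, e⟩) (fun e => hb ⟨q, hq, e⟩)
  · obtain ⟨p, hp, -⟩ := hm
    have c1 : Commute (ι x) (Yp y (P u)) := (hP u hu).2.comm1 (Yp_nil hy _) (hx.map ι)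
    obtain ⟨q, hq⟩ := Yp_rev hy (hP u hu).1
    have c2 : Commute (ι x) y := by rw [hq]; exact commute_aeval c1 _
    have c3 : Commute (ι x) (ι m) := hp.comm2 (Yp_nil hy _) (commute_aeval c2 _)
    exact hι (by rw [map_mul, map_mul]; exact c3.eq)
  · have e1 : Yp y (Q u) = Yp y (Q v) := (hs u).right_unique (Yp_nil hy _) (e ▸ hs v)
    have e2 : (P u).coeff 0 = (P v).coeff 0 := by
      apply s1; rw [← hQ0, ← hQ0]; exact Yp_lead hy hy1 e1
    have e3 : ∀ (p : F[X]) (a c : F), Yp y (C a * p + C c) = a • Yp y p + c • y := by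
      intro p a c
      have : X * (C a * p + C c) = C a * (X * p) + C c * X := by ring
      rw [Yp, this, Yp]; simp [Algebra.smul_def]
    simp only [Q, e3, e2] at e1
    have e4 : Yp y (P u) = Yp y (P v) :=
      smul_right_injective A (s5 1 one_ne_zero) (add_right_cancel e1)
    exact hι ((hP u hu).2.left_unique (Yp_nil hy _) (e4 ▸ (hP v hv).2))
  · have e0 : ι u * ι (s u) = ι v * ι (s v) := by
      rw [← map_mul, ← map_mul]; exact congrArg ι e
    obtain ⟨r, hr, hr'⟩ := cay_mul hβ hτ hy (hP u hu).2 (hs u)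
    obtain ⟨r2, hr2, hr2'⟩ := cay_mul hβ hτ hy (hP v hv).2 (hs v)
    have e2 : (P u).coeff 0 = (P v).coeff 0 := by
      apply s2
      show (P u).coeff 0 + σ _ = (P v).coeff 0 + σ _
      rw [← hQ0, ← hQ0, ← hr', ← hr2']
      exact hlead _ _ _ hr (e0 ▸ hr2)
    have h1 := hs u
    have h1' := hs v
    simp only [Q] at h1 h1'
    rw [e2] at h1
    have e4 := cay_cross hy (s6 1 one_ne_zero) (hP u hu).2 h1 (hP v hv).2 h1' e0
    exact hι ((hP u hu).2.left_unique (Yp_nil hy _) (e4 ▸ (hP v hv).2))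

end

end Pool.Agent.Lib.MP_2c654c_co
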