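import Mathlib
import Pool.Agent.Lib.MP_2c654c_co.Lift

set_option autoImplicit false

namespace Pool.Agent.Lib.MP_2c654c_co

open Function
open scoped commutatorElement

theorem fitting3 {M : Type} [AddCommGroup M] [Finite M] (h2 : ∀ a : M, a + a = 0 → a = 0)
    (α : Module.End ℤ M) (h3 : ∀ a : M, a + a + a = 0 → α a = -a → a = 0) :
    ∃ E : Module.End ℤ M, (∀ a, E (E a) = E a) ∧ (∀ a, α a + (E a + E a - a) = 0 → a = 0) ∧
      (∀ a, a + a - E a = 0 → a = 0) ∧ (∀ a, a + (a + a - E a) = 0 → a = 0) ∧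
      (∀ a, (a + a - E a) + α a = 0 → a = 0) := by
  have : Finite (Module.End ℤ M) := DFunLike.finite _
  obtain ⟨n, hn, hE⟩ := exists_idem_pow (1 + α)
  obtain ⟨E, hEd⟩ : ∃ E, E = (1 + α) ^ n := ⟨_, rfl⟩
  rw [← hEd] at hE
  have hEE : ∀ a, E (E a) = E a := fun a => by
    have := congrArg (fun f : Module.End ℤ M => f a) hE
    simpa using this
  have hc : ∀ a, E (α a) = α (E a) := fun a => by
    have : E * α = α * E := by
      rw [hEd]; exact (((Commute.one_left α).add_left (Commute.refl α)).pow_left n).eq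
    have := congrArg (fun f : Module.End ℤ M => f a) this
    simpa using this
  have hk : ∀ a, E a + α (E a) = 0 → E a = 0 := by
    intro a ha
    obtain ⟨m, rfl⟩ : ∃ m, n = m + 1 := ⟨n - 1, by omega⟩
    have h5' : ∀ b, E b = ((1 + α) ^ m) ((1 + α) b) := fun b => by
      rw [hEd, pow_succ]; rfl
    have h5 := h5' (E a)
    rw [← hEE, h5]
    have : (1 + α) (E a) = 0 := by simpa using ha
    rw [this, map_zero]
  have hev : ∀ (c : ℤ) a, (1 + α) a = c • a → ∀ m : ℕ, ((1 + α) ^ m) a = c ^ m • a := by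
    intro c a ha m
    induction m with
    | zero => simp
    | succ m ih =>
      rw [pow_succ', Module.End.mul_apply, ih, map_zsmul, ha, smul_smul, pow_succ]
  have h2p : ∀ (m : ℕ) (a : M), (2 : ℤ) ^ m • a = 0 → a = 0 := by
    intro m
    induction m with
    | zero => intro a ha; simpa using ha
    | succ m ih =>
      intro a ha
      apply ih
      apply h2
      rw [← ha, pow_succ', mul_smul, two_smul]
  refine ⟨E, hEE, ?_, ?_, ?_, ?_⟩
  · intro a ha
    have h5 := congrArg E ha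
    rw [map_add, map_sub, map_add, hEE, hc, map_zero] at h5
    have h6 : E a = 0 := hk a (by rw [← h5]; abel)
    rw [h6] at ha
    have h7 : (1 + α) a = (2 : ℤ) • a := by
      have : α a = a := by rw [← sub_eq_zero, ← ha]; abel
      simp [this, two_smul]
    apply h2p n
    rw [← hev 2 a h7 n, ← hEd, h6]
  · intro a ha
    have h5 := congrArg E ha
    rw [map_sub, map_add, hEE, map_zero] at h5
    have h6 : E a = 0 := by rw [← h5]; abel
    rw [h6, sub_zero] at ha
    exact h2 a ha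
  · intro a ha
    have h5 := congrArg E ha
    rw [map_add, map_sub, map_add, hEE, map_zero] at h5
    have h6 : E a = 0 := h2 _ (by rw [← h5]; abel)
    rw [h6, sub_zero, ← add_assoc] at ha
    have key : ∀ (m : ℕ) (b : M), b + b + b = 0 → ((1 + α) ^ m) b = 0 → b = 0 := by
      intro m
      induction m with
      | zero => intro b _ hb; simpa using hb
      | succ m ih =>
        intro b h0 hb
        rw [pow_succ, Module.End.mul_apply] at hb
        have h7 := ih _ (by rw [← map_add, ← map_add, h0, map_zero]) hb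
        exact h3 b h0 (eq_neg_of_add_eq_zero_right (by simpa using h7))
    exact key n a ha (by rw [← hEd, h6])
  · intro a ha
    have h5 := congrArg E ha
    rw [map_add, map_sub, map_add, hEE, hc, map_zero] at h5
    have h6 : E a = 0 := hk a (by rw [← h5]; abel)
    rw [h6, sub_zero] at ha
    have h7 : (1 + α) a = (-1 : ℤ) • a := by
      have : α a = - (a + a) := by rw [← sub_eq_zero, ← ha]; abel
      simp [this]
    have h8 := hev (-1) a h7 n
    rw [← hEd, h6] at h8
    rcases neg_one_pow_eq_or ℤ n with h | h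
    · rw [h] at h8; simpa using h8.symm
    · rw [h] at h8; simpa using h8.symm

theorem fitting_mul3 {A : Type} [CommGroup A] [Finite A] (h2 : ∀ a : A, a * a = 1 → a = 1)
    (α : A →* A) (h3 : ∀ a : A, a * a * a = 1 → α a = a⁻¹ → a = 1) :
    (∃ g : A → A, Involutive g ∧ Injective (fun a => α a * g a)) ∧
    (∃ f : A → A, Bijective f ∧ Injective (fun a => a * f a) ∧ Injective (fun a => f a * α a)) := by
  obtain ⟨E, hE, h4, h5, h6, h7⟩ := fitting3 (M := Additive A) h2
    (MonoidHom.toAdditive α).toIntLinearMap h3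
  let P : A →* A := MonoidHom.toAdditive.symm E.toAddMonoidHom
  have hP : ∀ a, P (P a) = P a := hE
  have k4 : ∀ a : A, α a * (P a * P a / a) = 1 → a = 1 := h4
  have k5 : ∀ a : A, a * a / P a = 1 → a = 1 := h5
  have k6 : ∀ a : A, a * (a * a / P a) = 1 → a = 1 := h6
  have k7 : ∀ a : A, (a * a / P a) * α a = 1 → a = 1 := h7
  let I : A →* A := MonoidHom.id A
  refine ⟨⟨fun a => P a * P a / a, ?_, ?_⟩, ⟨fun a => a * a / P a, ?_, ?_, ?_⟩⟩
  · intro a
    simp only [map_div, map_mul, hP]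
    simp [div_eq_mul_inv, mul_assoc, mul_comm, mul_left_comm]
  · exact (injective_iff_map_eq_one (α * (P * P / I))).2 k4
  · exact (Finite.injective_iff_bijective).1 ((injective_iff_map_eq_one (I * I / P)).2 k5)
  · exact (injective_iff_map_eq_one (I * (I * I / P))).2 k6
  · exact (injective_iff_map_eq_one ((I * I / P) * α)).2 k7

section
variable {G Q : Type} [Group G] [Group Q] [Finite G] (π : G →* Q) (hs : Surjective π)
  (hc : ∀ a b : π.ker, a * b = b * a) (h2 : ∀ a : π.ker, a * a = 1 → a = 1)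
  (h3 : ∀ a : π.ker, a * a * a = 1 → ∀ z : G, z * a * z⁻¹ = (a : G)⁻¹ → a = 1)
include hs hc h2 h3

theorem fit_conj3 (z : G) :
    (∃ g : π.ker → π.ker, Involutive g ∧
      ∀ a a' : π.ker, z * a * z⁻¹ * g a = z * a' * z⁻¹ * g a' → a = a') ∧
    (∃ f : π.ker → π.ker, Bijective f ∧ Injective (fun a => a * f a) ∧
      ∀ a a' : π.ker, f a * (z * a * z⁻¹) = f a' * (z * a' * z⁻¹) → a = a') := by
  let _ : CommGroup π.ker := { (inferInstance : Group π.ker) with mul_comm := hc }
  obtain ⟨⟨g, hg1, hg2⟩, ⟨f, hf1, hf2, hf3⟩⟩ :=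
    fitting_mul3 (A := π.ker) h2 (MulAut.conjNormal z : MulAut π.ker).toMonoidHom
      (fun a ha hz => h3 a ha z (congrArg Subtype.val hz))
  refine ⟨⟨g, hg1, fun a a' h => hg2 (Subtype.ext ?_)⟩, ⟨f, hf1, hf2, fun a a' h => hf3 (Subtype.ext ?_)⟩⟩
  · exact h
  · exact h

theorem good_loop3 (p : Q) : ∃ b : G → G, Good π p p b b := by
  classical
  obtain ⟨x, rfl⟩ := hs p
  obtain ⟨⟨g, hg1, hg2⟩, -⟩ := fit_conj3 π hs hc h2 h3 x⁻¹
  have hm : ∀ e, π e = π x → x⁻¹ * e ∈ π.ker := fun e he => by simp [MonoidHom.mem_ker, he]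
  let b : G → G := fun e => if h : x⁻¹ * e ∈ π.ker then x * g ⟨_, h⟩ else e
  have hb : ∀ a : π.ker, b (x * a) = x * g a := by
    intro a
    have h : x⁻¹ * (x * a) ∈ π.ker := by rw [inv_mul_cancel_left]; exact a.2
    have h' : (⟨_, h⟩ : π.ker) = a := Subtype.ext (inv_mul_cancel_left _ _)
    simp only [b, dif_pos h, h']
  have hrep : ∀ e, π e = π x → ∃ a : π.ker, e = x * a := fun e he =>
    ⟨⟨_, hm e he⟩, (mul_inv_cancel_left _ _).symm⟩
  have k1 : ∀ e, π e = π x → π (b e) = π x ∧ b (b e) = e := by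
    intro e he
    obtain ⟨a, rfl⟩ := hrep e he
    rw [hb, hb, hg1, map_mul, (g a).2, mul_one]
    exact ⟨rfl, rfl⟩
  have k2 : ∀ e e', π e = π x → π e' = π x → e * b e = e' * b e' → e = e' := by
    intro e e' he he' h
    obtain ⟨a, rfl⟩ := hrep e he
    obtain ⟨a', rfl⟩ := hrep e' he'
    rw [hb, hb] at h
    rw [hg2 a a']
    have e1 : ∀ a : π.ker, x⁻¹ * a * x⁻¹⁻¹ * g a = (x * x)⁻¹ * (x * a * (x * g a)) := fun a => by
      group
    rw [e1, e1, h]
  exact ⟨b, k1, k1, k2, k2⟩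

theorem good_pair3 (p q : Q) : ∃ b c : G → G, Good π p q b c := by
  classical
  obtain ⟨x, rfl⟩ := hs p
  obtain ⟨y, rfl⟩ := hs q
  obtain ⟨-, ⟨f, hf1, hf2, hf3⟩⟩ := fit_conj3 π hs hc h2 h3 (y * x)
  let F := Equiv.ofBijective f hf1
  let b : G → G := fun e => if h : x⁻¹ * e ∈ π.ker then f ⟨_, h⟩ * y else e
  let c : G → G := fun e => if h : e * y⁻¹ ∈ π.ker then x * F.symm ⟨_, h⟩ else e
  have hb : ∀ a : π.ker, b (x * a) = f a * y := by
    intro a
    have h : x⁻¹ * (x * a) ∈ π.ker := by rw [inv_mul_cancel_left]; exact a.2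
    have h' : (⟨_, h⟩ : π.ker) = a := Subtype.ext (inv_mul_cancel_left _ _)
    simp only [b, dif_pos h, h']
  have hc' : ∀ a : π.ker, c (f a * y) = x * a := by
    intro a
    have h : f a * y * y⁻¹ ∈ π.ker := by rw [mul_inv_cancel_right]; exact (f a).2
    have h' : (⟨_, h⟩ : π.ker) = F a := Subtype.ext (mul_inv_cancel_right _ _)
    simp only [c, dif_pos h, h', Equiv.symm_apply_apply]
  have hx : ∀ e, π e = π x → ∃ a : π.ker, e = x * a := fun e he =>
    ⟨⟨x⁻¹ * e, by simp [MonoidHom.mem_ker, he]⟩, (mul_inv_cancel_left _ _).symm⟩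
  have hy : ∀ e, π e = π y → ∃ a : π.ker, e = f a * y := fun e he => by
    obtain ⟨a, ha⟩ := hf1.2 ⟨e * y⁻¹, by simp [MonoidHom.mem_ker, he]⟩
    exact ⟨a, by rw [ha]; exact (inv_mul_cancel_right _ _).symm⟩
  refine ⟨b, c, ?_, ?_, ?_, ?_⟩
  · intro e he
    obtain ⟨a, rfl⟩ := hx e he
    rw [hb, hc', map_mul, (f a).2, one_mul]
    exact ⟨rfl, rfl⟩
  · intro e he
    obtain ⟨a, rfl⟩ := hy e he
    rw [hc', hb, map_mul, a.2, mul_one]
    exact ⟨rfl, rfl⟩
  · intro e e' he he' h
    obtain ⟨a, rfl⟩ := hx e he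
    obtain ⟨a', rfl⟩ := hx e' he'
    rw [hb, hb] at h
    rw [hf2 (a₁ := a) (a₂ := a') (Subtype.ext ?_)]
    have e1 : ∀ a : π.ker, ((a * f a : π.ker) : G) = x⁻¹ * (x * a * (f a * y)) * y⁻¹ := fun a => by
      rw [Subgroup.coe_mul]; group
    show ((a * f a : π.ker) : G) = ((a' * f a' : π.ker) : G)
    rw [e1, e1, h]
  · intro e e' he he' h
    obtain ⟨a, rfl⟩ := hy e he
    obtain ⟨a', rfl⟩ := hy e' he'
    rw [hc', hc'] at h
    rw [hf3 a a']
    have e1 : ∀ a : π.ker, f a * (y * x * a * (y * x)⁻¹) = (f a * y * (x * a)) * (y * x)⁻¹ :=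
      fun a => by group
    rw [e1, e1, h]

theorem good_family3 : ∃ β : Q → Q → G → G, ∀ p q, Good π p q (β p q) (β q p) := by
  classical
  let _ : LinearOrder Q := linearOrderOfSTO WellOrderingRel
  choose l hl using good_loop3 π hs hc h2 h3
  choose b c hbc using good_pair3 π hs hc h2 h3
  refine ⟨fun p q => if p = q then l p else if p < q then b p q else c q p, fun p q => ?_⟩
  rcases lt_trichotomy p q with h | rfl | h
  · simp only [if_neg h.ne, if_neg h.ne', if_pos h, if_neg h.not_gt]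
    exact hbc p q
  · simp only [if_true]
    exact hl p
  · simp only [if_neg h.ne, if_neg h.ne', if_pos h, if_neg h.not_gt]
    exact (hbc q p).symm

theorem sys_lift_abelian3 (h : Sys Q) : Sys G := by
  obtain ⟨θ, k1, k2⟩ := h
  obtain ⟨β, hβ⟩ := good_family3 π hs hc h2 h3
  refine ⟨fun x e => β (π e) (θ (π x) (π e)) e, fun x e => ?_, fun x e e' h => ?_⟩
  · obtain ⟨a1, a2⟩ := (hβ (π e) (θ (π x) (π e))).1 e rfl
    show β (π (β (π e) (θ (π x) (π e)) e)) (θ (π (x * e)) (π (β (π e) (θ (π x) (π e)) e)))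
      (β (π e) (θ (π x) (π e)) e) = e
    rw [a1, map_mul, k1, a2]
  · have h' : e * β (π e) (θ (π x) (π e)) e = e' * β (π e') (θ (π x) (π e')) e' := h
    have h4 := congrArg π h'
    rw [map_mul, map_mul, ((hβ _ _).1 e rfl).1, ((hβ _ _).1 e' rfl).1] at h4
    have h5 : π e = π e' := k2 (π x) h4
    rw [← h5] at h'
    exact (hβ _ _).2.2.1 e e' rfl h5.symm h'

end

/-- An inverted element of order three of an odd section comes from one upstairs. -/
theorem inv_lift {G H : Type} [Group G] [Finite G] [Group H] (π : G →* H) (N : Subgroup G)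
    [hN : N.Normal] (hK : π.ker ≤ N) (hodd : Nat.Coprime (Nat.card π.ker) 2)
    (hre : ∀ x ∈ N, x ^ 3 = 1 → ∀ z : G, z * x * z⁻¹ = x⁻¹ → x = 1) {a z : G} (ha : a ∈ N)
    (h3 : π a ^ 3 = 1) (hz : π z * π a * (π z)⁻¹ = (π a)⁻¹) : π a = 1 := by
  classical
  obtain ⟨s, m, hm, hsm⟩ := Nat.exists_eq_two_pow_mul_odd (orderOf_pos z).ne'
  have h2 : Commute (π z * π z) (π a) := by
    have e : π z * (π a)⁻¹ * (π z)⁻¹ = π a := by
      rw [← conj_inv, hz, inv_inv]
    calc π z * π z * π a = π z * (π z * π a * (π z)⁻¹) * (π z)⁻¹ * (π z * π z) := by group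
      _ = π a * (π z * π z) := by rw [hz, e]
  obtain ⟨j, rfl⟩ := hm
  obtain ⟨w, hw⟩ : ∃ w, w = z ^ (2 * j + 1) := ⟨_, rfl⟩
  have hwa : π w * π a * (π w)⁻¹ = (π a)⁻¹ := by
    have e := (h2.pow_left j).eq
    rw [hw, map_pow, pow_succ', pow_mul, pow_two, mul_assoc (π z), e, ← hz]; group
  have hw2 : π (w * w) * π a * (π (w * w))⁻¹ = π a := by
    have e : π w * (π a)⁻¹ * (π w)⁻¹ = π a := by
      rw [← conj_inv, hwa, inv_inv]
    calc _ = π w * (π w * π a * (π w)⁻¹) * (π w)⁻¹ := by rw [map_mul]; group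
      _ = π a := by rw [hwa, e]
  have hwo : (w * w) ^ 2 ^ s = 1 := by
    have e : w ^ 2 ^ s = 1 := by rw [hw, ← pow_mul, mul_comm, ← hsm, pow_orderOf_eq_one]
    rw [(Commute.refl w).mul_pow, e, mul_one]
  let f : Function.End π.ker := fun k => ⟨a⁻¹ * (w * w * (a * k) * (w * w)⁻¹), by
    rw [MonoidHom.mem_ker, map_mul, map_mul, map_mul, map_mul π a, k.2, mul_one, map_inv, map_inv,
      hw2, inv_mul_cancel]⟩
  have hf : ∀ (n : ℕ) (k : π.ker), (((f ^ n) k : π.ker) : G) =
      a⁻¹ * ((w * w) ^ n * (a * k) * ((w * w) ^ n)⁻¹) := by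
    intro n
    induction n with
    | zero => intro k; simp [Function.End.one_def]
    | succ n ih =>
      intro k
      rw [pow_succ']
      change a⁻¹ * (w * w * (a * ((f ^ n) k : π.ker)) * (w * w)⁻¹) = _
      rw [ih, pow_succ']
      generalize w * w = u
      generalize u ^ n = v
      group
  have := Fintype.ofFinite π.ker
  have hfix := Equiv.Perm.card_fixedPoints_modEq (p := 2) (n := s) (f := f)
    (funext fun k => Subtype.ext (by rw [hf, hwo]; simp [Function.End.one_def]))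
  obtain ⟨k, hk⟩ : Nonempty (Function.fixedPoints f) := by
    rw [← Fintype.card_pos_iff, Nat.pos_iff_ne_zero]
    intro h0
    rw [h0, ← Nat.card_eq_fintype_card] at hfix
    have := Nat.Coprime.eq_one_of_dvd hodd.symm (Nat.modEq_zero_iff_dvd.1 hfix)
    omega
  obtain ⟨x, hx⟩ : ∃ x, x = a * k := ⟨_, rfl⟩
  have hxN : x ∈ N := hx ▸ N.mul_mem ha (hK k.2)
  have hxa : π x = π a := by rw [hx, map_mul, k.2, mul_one]
  have hxw : w * w * x * (w * w)⁻¹ = x := by
    have e : a⁻¹ * (w * w * (a * k) * (w * w)⁻¹) = k := congrArg Subtype.val hk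
    rw [hx]
    exact inv_mul_eq_iff_eq_mul.1 e
  obtain ⟨y, hy⟩ : ∃ y, y = x * (w * x * w⁻¹)⁻¹ := ⟨_, rfl⟩
  have hyN : y ∈ N := hy ▸ N.mul_mem hxN (N.inv_mem (hN.conj_mem x hxN w))
  have hyw : w * y * w⁻¹ = y⁻¹ := by
    calc w * y * w⁻¹ = w * x * w⁻¹ * (w * w * x * (w * w)⁻¹)⁻¹ := by rw [hy]; group
      _ = y⁻¹ := by rw [hxw, hy]; group
  have hya : π y = π a ^ 2 := by
    rw [hy, map_mul, map_inv, map_mul, map_mul, map_inv, hxa, hwa, inv_inv, pow_two]
  have hnd : ¬ 3 ∣ orderOf y := by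
    rintro ⟨t, ht⟩
    have e := hre (y ^ t) (N.pow_mem hyN t) (by rw [← pow_mul, mul_comm, ← ht, pow_orderOf_eq_one])
      w (by rw [← conj_pow, hyw, inv_pow])
    have e2 := Nat.le_of_dvd (Nat.pos_of_ne_zero (by
      rintro rfl
      exact (orderOf_pos y).ne' ht)) (orderOf_dvd_of_pow_eq_one e)
    have := orderOf_pos y
    omega
  have h5 : π a ^ 2 = 1 := by
    rw [← orderOf_eq_one_iff]
    refine Nat.eq_one_of_dvd_coprimes ((Nat.Prime.coprime_iff_not_dvd Nat.prime_three).2 hnd)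
      (orderOf_dvd_of_pow_eq_one ?_) (hya ▸ orderOf_map_dvd π y)
    rw [← pow_mul, mul_comm, pow_mul, h3, one_pow]
  rw [pow_succ, h5, one_mul] at h3
  exact h3

theorem sys_lift_odd {G : Type} [Group G] [Finite G] (n : ℕ) :
    ∀ (N : Subgroup G) [N.Normal], Nat.card N = n → Group.IsSolvable N → Nat.Coprime (Nat.card N) 2 →
      (∀ x ∈ N, x ^ 3 = 1 → ∀ z : G, z * x * z⁻¹ = x⁻¹ → x = 1) → Sys (G ⧸ N) → Sys G := by
  induction n using Nat.strong_induction_on with
  | _ n ih =>
    intro N _ hn hsol hcop hre hS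
    by_cases hN : N = ⊥
    · subst hN
      exact sys_congr QuotientGroup.quotientBot.symm hS
    · have hle : ⁅N, N⁆ ≤ N := Subgroup.commutator_le_left N N
      have hlt : ⁅N, N⁆ < N := by
        have : Nontrivial N := (Subgroup.nontrivial_iff_ne_bot N).2 hN
        have h1 := Group.IsSolvable.commutator_lt_top_of_nontrivial N
        refine lt_of_le_of_ne hle fun h => h1.ne ?_
        apply Subgroup.map_injective N.subtype_injective
        rw [Subgroup.map_subtype_commutator, h, ← MonoidHom.range_eq_map, Subgroup.range_subtype]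
      have hdvd : Nat.card (⁅N, N⁆ : Subgroup G) ∣ Nat.card N := Subgroup.card_dvd_of_le hle
      refine ih (Nat.card (⁅N, N⁆ : Subgroup G)) ?_ ⁅N, N⁆ rfl ?_ (hcop.coprime_dvd_left hdvd)
        (fun x hx => hre x (hle hx)) ?_
      · rw [← hn]
        exact Set.Finite.card_lt_card (Set.toFinite _) hlt
      · exact Group.isSolvable_of_isSolvable_injective (Subgroup.inclusion_injective hle)
      · let π : G ⧸ ⁅N, N⁆ →* G ⧸ N := QuotientGroup.map ⁅N, N⁆ N (MonoidHom.id G) hle
        have hπ : ∀ x : G, π (x : G ⧸ ⁅N, N⁆) = (x : G ⧸ N) := fun x => rfl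
        have hker : ∀ a : π.ker, ∃ x : N, (a : G ⧸ ⁅N, N⁆) = ((x : G) : G ⧸ ⁅N, N⁆) := by
          rintro ⟨a, ha⟩
          obtain ⟨x, rfl⟩ := QuotientGroup.mk_surjective a
          rw [MonoidHom.mem_ker, hπ, QuotientGroup.eq_one_iff] at ha
          exact ⟨⟨x, ha⟩, rfl⟩
        have hpow : ∀ (k : ℕ), Nat.Coprime (Nat.card N) k → ∀ a : π.ker, a ^ k = 1 → a = 1 := by
          intro k hk a ha
          obtain ⟨x, hx⟩ := hker a
          have h1 : a ^ Nat.card N = 1 := by
            apply Subtype.ext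
            rw [Subgroup.coe_pow, hx, ← QuotientGroup.mk_pow, ← Subgroup.coe_pow, pow_card_eq_one']
            rfl
          rw [← orderOf_eq_one_iff]
          exact Nat.eq_one_of_dvd_coprimes hk (orderOf_dvd_of_pow_eq_one h1)
            (orderOf_dvd_of_pow_eq_one ha)
        refine sys_lift_abelian3 π ?_ ?_ ?_ ?_ hS
        · intro q
          obtain ⟨x, rfl⟩ := QuotientGroup.mk_surjective q
          exact ⟨x, rfl⟩
        · intro a b
          obtain ⟨x, hx⟩ := hker a
          obtain ⟨y, hy⟩ := hker b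
          apply Subtype.ext
          rw [Subgroup.coe_mul, Subgroup.coe_mul, hx, hy, ← QuotientGroup.mk_mul,
            ← QuotientGroup.mk_mul, QuotientGroup.eq]
          have : ((x : G) * y)⁻¹ * (y * x) = ⁅(y : G)⁻¹, (x : G)⁻¹⁆ := by
            rw [commutatorElement_def]; group
          rw [this]
          exact Subgroup.commutator_mem_commutator (N.inv_mem y.2) (N.inv_mem x.2)
        · intro a ha
          exact hpow 2 hcop a (by rw [pow_two, ha])
        · intro a ha z hz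
          obtain ⟨x, hx⟩ := hker a
          obtain ⟨z, rfl⟩ := QuotientGroup.mk_surjective z
          have h3 := congrArg Subtype.val ha
          rw [Subgroup.coe_mul, Subgroup.coe_mul, hx] at h3
          rw [hx] at hz
          refine Subtype.ext (hx.trans ?_)
          exact inv_lift (QuotientGroup.mk' ⁅N, N⁆) N (by rwa [QuotientGroup.ker_mk'])
            (by rw [QuotientGroup.ker_mk']; exact hcop.coprime_dvd_left hdvd) hre x.2
            (by rw [pow_succ, pow_two]; exact h3) hz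

end Pool.Agent.Lib.MP_2c654c_co
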