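import Mathlib

set_option autoImplicit false

/-!
Over the field with three elements and in dimension at least two, for each endomorphism `α` there
is an endomorphism `f` with `f`, `1 + f` and `f + α` injective.
-/

namespace Pool.Agent.Lib.MP_2c654c_co

open Function Submodule Set

theorem two_ne_zero_three : (2 : ZMod 3) ≠ 0 := by decide

variable {V : Type} [AddCommGroup V] [Module (ZMod 3) V] [Finite V]

theorem ncard_shift {k : ℕ} {v : Fin k → V} (h : LinearIndependent (ZMod 3) v) (c : V) :
    {y | y + c ∈ span (ZMod 3) (range v)}.ncard = 3 ^ k := by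
  have e : {y | y + c ∈ span (ZMod 3) (range v)}
      = (fun y => y - c) '' (span (ZMod 3) (range v) : Set V) := by
    ext y
    constructor
    · intro hy; exact ⟨y + c, hy, by simp⟩
    · rintro ⟨z, hz, rfl⟩; simpa using hz
  rw [e, ncard_image_of_injective _ sub_left_injective, ← Nat.card_coe_set_eq]
  have := Module.natCard_eq_pow_finrank (K := ZMod 3) (V := span (ZMod 3) (range v))
  rw [finrank_span_eq_card h, Fintype.card_fin, Nat.card_zmod] at this
  exact this

theorem cols {n : ℕ} (hV : Nat.card V = 3 ^ (n + 2)) (b c : ℕ → V) (h0 : b (n + 1) ≠ 0)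
    (h1 : b (n + 1) + b 0 ≠ 0) (h2 : -b (n + 1) + b 0 ≠ 0) :
    ∀ k, k ≤ n + 1 → ∃ x : ℕ → V, (x 0 = b (n + 1) ∨ x 0 = -b (n + 1)) ∧
      LinearIndependent (ZMod 3) (fun i : Fin (k + 1) => x i + 0) ∧
      LinearIndependent (ZMod 3) (fun i : Fin (k + 1) => x i + b i) ∧
      LinearIndependent (ZMod 3) (fun i : Fin (k + 1) => x i + c i) := by
  haveI : Fact (Nat.Prime 3) := ⟨by norm_num⟩
  intro k
  induction k with
  | zero =>
    intro _
    have one : ∀ v : Fin 1 → V, v 0 ≠ 0 → LinearIndependent (ZMod 3) v := fun v hv =>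
      linearIndependent_unique_iff.2 hv
    have two := two_ne_zero_three
    by_cases h : b (n + 1) + c 0 = 0
    · refine ⟨fun _ => -b (n + 1), Or.inr rfl, one _ ?_, one _ ?_, one _ ?_⟩
      · simpa using h0
      · exact h2
      · intro h'
        have h3 : -b (n + 1) + c 0 = 0 := h'
        have h4 : (2 : ZMod 3) • b (n + 1) = 0 := by
          rw [two_smul]
          calc b (n + 1) + b (n + 1) = (b (n + 1) + c 0) - (-b (n + 1) + c 0) := by abel
            _ = 0 := by rw [h, h3, sub_zero]
        exact h0 ((smul_eq_zero.1 h4).resolve_left two)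
    · refine ⟨fun _ => b (n + 1), Or.inl rfl, one _ ?_, one _ h1, one _ h⟩
      simpa using h0
  | succ k ih =>
    intro hk
    obtain ⟨x, x0, l1, l2, l3⟩ := ih (by omega)
    have c1 := ncard_shift l1 0
    have c2 := ncard_shift l2 (b (k + 1))
    have c3 := ncard_shift l3 (c (k + 1))
    set S1 := {y | y + 0 ∈ span (ZMod 3) (range fun i : Fin (k + 1) => x i + 0)} with hS1
    set S2 := {y | y + b (k + 1) ∈ span (ZMod 3) (range fun i : Fin (k + 1) => x i + b i)} with hS2
    set S3 := {y | y + c (k + 1) ∈ span (ZMod 3) (range fun i : Fin (k + 1) => x i + c i)} with hS3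
    have hlt : (S1 ∪ S2 ∪ S3).ncard < 3 ^ (n + 2) := by
      have a1 := ncard_union_le (S1 ∪ S2) S3
      have a2 := ncard_union_add_ncard_inter S1 S2
      rcases hk.lt_or_eq with h | h
      · have : 3 ^ (k + 2) < 3 ^ (n + 2) := Nat.pow_lt_pow_right (by norm_num) (by omega)
        rw [pow_succ 3 (k + 1)] at this
        omega
      · have hx : x 0 ∈ span (ZMod 3) (range fun i : Fin (k + 1) => x i + 0) :=
          subset_span ⟨0, by simp⟩
        have m1 : -b (n + 1) ∈ S1 := by
          simp only [hS1, mem_ofPred_eq, add_zero] at hx ⊢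
          rcases x0 with e | e
          · rw [← e]; exact neg_mem hx
          · rw [← e]; exact hx
        have m2 : -b (n + 1) ∈ S2 := by
          have e : -b (n + 1) + b (k + 1) = 0 := by rw [h, neg_add_cancel]
          simp only [hS2, mem_ofPred_eq, e]
          exact zero_mem _
        have : 0 < (S1 ∩ S2).ncard := (ncard_pos (toFinite _)).2 ⟨_, m1, m2⟩
        rw [show n + 2 = k + 1 + 1 by omega, pow_succ 3 (k + 1)]
        omega
    obtain ⟨y, hy⟩ : ∃ y, y ∉ S1 ∪ S2 ∪ S3 := by
      by_contra hc
      rw [eq_univ_of_forall (s := S1 ∪ S2 ∪ S3) fun y => by_contra fun h => hc ⟨y, h⟩,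
        ncard_univ, hV] at hlt
      exact lt_irrefl _ hlt
    have key : ∀ d : ℕ → V, LinearIndependent (ZMod 3) (fun i : Fin (k + 1) => x i + d i) →
        y + d (k + 1) ∉ span (ZMod 3) (range fun i : Fin (k + 1) => x i + d i) →
        LinearIndependent (ZMod 3) (fun i : Fin (k + 1 + 1) => update x (k + 1) y i + d i) := by
      intro d hd hn
      have e : Fin.init (fun i : Fin (k + 1 + 1) => update x (k + 1) y i + d i)
          = fun i : Fin (k + 1) => x i + d i := by
        funext i
        simp only [Fin.init, Fin.val_castSucc]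
        rw [update_of_ne i.2.ne]
      rw [linearIndependent_finSucc', e]
      exact ⟨hd, by simpa using hn⟩
    refine ⟨update x (k + 1) y, by rwa [update_of_ne (by omega)], key (fun _ => 0) l1 ?_,
      key b l2 ?_, key c l3 ?_⟩
    · exact fun h => hy (Or.inl (Or.inl h))
    · exact fun h => hy (Or.inl (Or.inr h))
    · exact fun h => hy (Or.inr h)

theorem exists_three (hV : 3 < Nat.card V) (α : V →ₗ[ZMod 3] V) :
    ∃ f : V →ₗ[ZMod 3] V, Injective f ∧ Injective (fun a => a + f a) ∧
      Injective (fun a => f a + α a) := by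
  haveI : Fact (Nat.Prime 3) := ⟨by norm_num⟩
  have hc := Module.natCard_eq_pow_finrank (K := ZMod 3) (V := V)
  rw [Nat.card_zmod] at hc
  obtain ⟨n, hn⟩ : ∃ n, Module.finrank (ZMod 3) V = n + 2 := by
    refine ⟨Module.finrank (ZMod 3) V - 2, ?_⟩
    have : 1 < Module.finrank (ZMod 3) V := by
      rw [hc] at hV
      exact (Nat.pow_lt_pow_iff_right (by norm_num : 1 < 3)).1 (by simpa using hV)
    omega
  let B := Module.finBasisOfFinrankEq (ZMod 3) V hn
  let b : ℕ → V := fun i => if h : i < n + 2 then B ⟨i, h⟩ else 0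
  have hb : ∀ i : Fin (n + 2), b i = B i := fun i => dif_pos i.2
  have e1 : b (n + 1) = B (Fin.last _) := hb (Fin.last _)
  have e0 : b 0 = B 0 := hb 0
  have hne : Fin.last (n + 1) ≠ 0 := Fin.last_pos.ne'
  obtain ⟨x, -, l1, l2, l3⟩ := cols (hn ▸ hc) b (fun i => α (b i)) (e1 ▸ B.ne_zero _)
    (fun h => by
      have := congrArg (fun v => B.repr v 0) h
      simp [e1, e0, hne] at this)
    (fun h => by
      have := congrArg (fun v => B.repr v 0) h
      simp [e1, e0, hne] at this) (n + 1) le_rfl
  let f : V →ₗ[ZMod 3] V := B.constr (ZMod 3) fun i => x i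
  have inj : ∀ g : V →ₗ[ZMod 3] V, LinearIndependent (ZMod 3) (fun i => g (B i)) → Injective g :=
    fun g hg => LinearMap.injective_of_linearIndependent B.span_eq hg
  refine ⟨f, inj f ?_, inj (LinearMap.id + f) ?_, inj (f + α) ?_⟩
  · simpa [f] using l1
  · simpa [f, hb, add_comm] using l2
  · simpa [f, hb] using l3

end Pool.Agent.Lib.MP_2c654c_co
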