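import Pool.Agent.Lib.MP_2c654c_co.Lift
import Pool.Agent.Lib.MP_2c654c_co.Lin3

set_option autoImplicit false

/-!
Lifting through soluble normal subgroups of odd order whose sections of order three are central.
-/

namespace Pool.Agent.Lib.MP_2c654c_co

open Function
open scoped commutatorElement

theorem fitting2 {M : Type} [AddCommGroup M] [Finite M] (h2 : ∀ a : M, a + a = 0 → a = 0)
    (α : Module.End ℤ M) :
    ∃ E : Module.End ℤ M, (∀ a, E (E a) = E a) ∧ (∀ a, α a + (E a + E a - a) = 0 → a = 0) := by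
  have : Finite (Module.End ℤ M) := DFunLike.finite _
  obtain ⟨n, hn, hE⟩ := exists_idem_pow (1 + α)
  obtain ⟨E, hEd⟩ : ∃ E, E = (1 + α) ^ n := ⟨_, rfl⟩
  rw [← hEd] at hE
  have hEE : ∀ a, E (E a) = E a := fun a => by
    have := congrArg (fun f : Module.End ℤ M => f a) hE
    simpa using this
  have hc : ∀ a, E (α a) = α (E a) := fun a => by
    have : E * α = α * E := by
      rw [hEd]; exact (((Commute.one_left α).add_left (Commute.refl α)).pow_left n).eq
    have := congrArg (fun f : Module.End ℤ M => f a) this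
    simpa using this
  have hk : ∀ a, E a + α (E a) = 0 → E a = 0 := by
    intro a ha
    obtain ⟨m, rfl⟩ : ∃ m, n = m + 1 := ⟨n - 1, by omega⟩
    have h5' : ∀ b, E b = ((1 + α) ^ m) ((1 + α) b) := fun b => by
      rw [hEd, pow_succ]; rfl
    have h5 := h5' (E a)
    rw [← hEE, h5]
    have : (1 + α) (E a) = 0 := by simpa using ha
    rw [this, map_zero]
  have hev : ∀ (c : ℤ) a, (1 + α) a = c • a → ∀ m : ℕ, ((1 + α) ^ m) a = c ^ m • a := by
    intro c a ha m
    induction m with
    | zero => simp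
    | succ m ih =>
      rw [pow_succ', Module.End.mul_apply, ih, map_zsmul, ha, smul_smul, pow_succ]
  have h2p : ∀ (m : ℕ) (a : M), (2 : ℤ) ^ m • a = 0 → a = 0 := by
    intro m
    induction m with
    | zero => intro a ha; simpa using ha
    | succ m ih =>
      intro a ha
      apply ih
      apply h2
      rw [← ha, pow_succ', mul_smul, two_smul]
  refine ⟨E, hEE, ?_⟩
  · intro a ha
    have h5 := congrArg E ha
    rw [map_add, map_sub, map_add, hEE, hc, map_zero] at h5
    have h6 : E a = 0 := hk a (by rw [← h5]; abel)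
    rw [h6] at ha
    have h7 : (1 + α) a = (2 : ℤ) • a := by
      have : α a = a := by rw [← sub_eq_zero, ← ha]; abel
      simp [this, two_smul]
    apply h2p n
    rw [← hev 2 a h7 n, ← hEd, h6]

theorem loop_mul {A : Type} [CommGroup A] [Finite A] (h2 : ∀ a : A, a * a = 1 → a = 1)
    (α : A →* A) : ∃ g : A → A, Involutive g ∧ Injective (fun a => α a * g a) := by
  obtain ⟨E, hE, h4⟩ := fitting2 (M := Additive A) h2 (MonoidHom.toAdditive α).toIntLinearMap
  let P : A →* A := MonoidHom.toAdditive.symm E.toAddMonoidHom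
  have hP : ∀ a, P (P a) = P a := hE
  have k4 : ∀ a : A, α a * (P a * P a / a) = 1 → a = 1 := h4
  let I : A →* A := MonoidHom.id A
  refine ⟨fun a => P a * P a / a, ?_, ?_⟩
  · intro a
    simp only [map_div, map_mul, hP]
    simp [div_eq_mul_inv, mul_assoc, mul_comm, mul_left_comm]
  · exact (injective_iff_map_eq_one (α * (P * P / I))).2 k4

theorem pair_three {A : Type} [CommGroup A] [Finite A] (h3 : ∀ a : A, a * a * a = 1)
    (hA : 3 < Nat.card A) (α : A →* A) :
    ∃ f : A → A, Bijective f ∧ Injective (fun a => a * f a) ∧ Injective (fun a => f a * α a) := by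
  letI : Module (ZMod 3) (Additive A) := AddCommGroup.zmodModule fun x => by
    have : x + x + x = 0 := h3 x.toMul
    rw [← this]; abel
  obtain ⟨f, f1, f2, f3⟩ := exists_three (V := Additive A) hA
    ((MonoidHom.toAdditive α).toZModLinearMap 3)
  exact ⟨fun a => (f (Additive.ofMul a)).toMul, (Finite.injective_iff_bijective).1 f1, f2, f3⟩

/-- The data needed on the kernel. -/
def Fit {G Q : Type} [Group G] [Group Q] (π : G →* Q) : Prop := ∀ z : G,
    (∃ g : π.ker → π.ker, Involutive g ∧
      ∀ a a' : π.ker, z * a * z⁻¹ * g a = z * a' * z⁻¹ * g a' → a = a') ∧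
    (∃ f : π.ker → π.ker, Bijective f ∧ Injective (fun a => a * f a) ∧
      ∀ a a' : π.ker, f a * (z * a * z⁻¹) = f a' * (z * a' * z⁻¹) → a = a')

theorem fit_three {G Q : Type} [Group G] [Group Q] [Finite G] (π : G →* Q)
    (hc : ∀ a b : π.ker, a * b = b * a) (h2 : ∀ a : π.ker, a * a = 1 → a = 1)
    (h3 : ∀ a : π.ker, a * a * a = 1)
    (h : 3 < Nat.card π.ker ∨ ∀ (z : G) (a : π.ker), z * a * z⁻¹ = a) : Fit π := by
  intro z
  let _ : CommGroup π.ker := { (inferInstance : Group π.ker) with mul_comm := hc }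
  obtain ⟨g, hg1, hg2⟩ := loop_mul (A := π.ker) h2 (MulAut.conjNormal z : MulAut π.ker).toMonoidHom
  refine ⟨⟨g, hg1, fun a a' h => hg2 (Subtype.ext h)⟩, ?_⟩
  rcases h with h | h
  · obtain ⟨f, hf1, hf2, hf3⟩ :=
      pair_three (A := π.ker) h3 h (MulAut.conjNormal z : MulAut π.ker).toMonoidHom
    exact ⟨f, hf1, hf2, fun a a' h => hf3 (Subtype.ext h)⟩
  · have sq : Injective fun a : π.ker => a * a :=
      (injective_iff_map_eq_one (MonoidHom.id π.ker * MonoidHom.id π.ker)).2 h2
    refine ⟨id, bijective_id, sq, fun a a' e => sq (Subtype.ext ?_)⟩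
    rw [h, h] at e
    exact e

section
variable {G Q : Type} [Group G] [Group Q] [Finite G] (π : G →* Q) (hs : Surjective π)
  (hfit : Fit π)
include hs hfit

theorem good_loop' (p : Q) : ∃ b : G → G, Good π p p b b := by
  classical
  obtain ⟨x, rfl⟩ := hs p
  obtain ⟨⟨g, hg1, hg2⟩, -⟩ := hfit x⁻¹
  have hm : ∀ e, π e = π x → x⁻¹ * e ∈ π.ker := fun e he => by simp [MonoidHom.mem_ker, he]
  let b : G → G := fun e => if h : x⁻¹ * e ∈ π.ker then x * g ⟨_, h⟩ else e
  have hb : ∀ a : π.ker, b (x * a) = x * g a := by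
    intro a
    have h : x⁻¹ * (x * a) ∈ π.ker := by rw [inv_mul_cancel_left]; exact a.2
    have h' : (⟨_, h⟩ : π.ker) = a := Subtype.ext (inv_mul_cancel_left _ _)
    simp only [b, dif_pos h, h']
  have hrep : ∀ e, π e = π x → ∃ a : π.ker, e = x * a := fun e he =>
    ⟨⟨_, hm e he⟩, (mul_inv_cancel_left _ _).symm⟩
  have k1 : ∀ e, π e = π x → π (b e) = π x ∧ b (b e) = e := by
    intro e he
    obtain ⟨a, rfl⟩ := hrep e he
    rw [hb, hb, hg1, map_mul, (g a).2, mul_one]
    exact ⟨rfl, rfl⟩
  have k2 : ∀ e e', π e = π x → π e' = π x → e * b e = e' * b e' → e = e' := by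
    intro e e' he he' h
    obtain ⟨a, rfl⟩ := hrep e he
    obtain ⟨a', rfl⟩ := hrep e' he'
    rw [hb, hb] at h
    rw [hg2 a a']
    have e1 : ∀ a : π.ker, x⁻¹ * a * x⁻¹⁻¹ * g a = (x * x)⁻¹ * (x * a * (x * g a)) := fun a => by
      group
    rw [e1, e1, h]
  exact ⟨b, k1, k1, k2, k2⟩

theorem good_pair' (p q : Q) : ∃ b c : G → G, Good π p q b c := by
  classical
  obtain ⟨x, rfl⟩ := hs p
  obtain ⟨y, rfl⟩ := hs q
  obtain ⟨-, ⟨f, hf1, hf2, hf3⟩⟩ := hfit (y * x)
  let F := Equiv.ofBijective f hf1
  let b : G → G := fun e => if h : x⁻¹ * e ∈ π.ker then f ⟨_, h⟩ * y else e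
  let c : G → G := fun e => if h : e * y⁻¹ ∈ π.ker then x * F.symm ⟨_, h⟩ else e
  have hb : ∀ a : π.ker, b (x * a) = f a * y := by
    intro a
    have h : x⁻¹ * (x * a) ∈ π.ker := by rw [inv_mul_cancel_left]; exact a.2
    have h' : (⟨_, h⟩ : π.ker) = a := Subtype.ext (inv_mul_cancel_left _ _)
    simp only [b, dif_pos h, h']
  have hc' : ∀ a : π.ker, c (f a * y) = x * a := by
    intro a
    have h : f a * y * y⁻¹ ∈ π.ker := by rw [mul_inv_cancel_right]; exact (f a).2
    have h' : (⟨_, h⟩ : π.ker) = F a := Subtype.ext (mul_inv_cancel_right _ _)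
    simp only [c, dif_pos h, h', Equiv.symm_apply_apply]
  have hx : ∀ e, π e = π x → ∃ a : π.ker, e = x * a := fun e he =>
    ⟨⟨x⁻¹ * e, by simp [MonoidHom.mem_ker, he]⟩, (mul_inv_cancel_left _ _).symm⟩
  have hy : ∀ e, π e = π y → ∃ a : π.ker, e = f a * y := fun e he => by
    obtain ⟨a, ha⟩ := hf1.2 ⟨e * y⁻¹, by simp [MonoidHom.mem_ker, he]⟩
    exact ⟨a, by rw [ha]; exact (inv_mul_cancel_right _ _).symm⟩
  refine ⟨b, c, ?_, ?_, ?_, ?_⟩
  · intro e he
    obtain ⟨a, rfl⟩ := hx e he
    rw [hb, hc', map_mul, (f a).2, one_mul]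
    exact ⟨rfl, rfl⟩
  · intro e he
    obtain ⟨a, rfl⟩ := hy e he
    rw [hc', hb, map_mul, a.2, mul_one]
    exact ⟨rfl, rfl⟩
  · intro e e' he he' h
    obtain ⟨a, rfl⟩ := hx e he
    obtain ⟨a', rfl⟩ := hx e' he'
    rw [hb, hb] at h
    rw [hf2 (a₁ := a) (a₂ := a') (Subtype.ext ?_)]
    have e1 : ∀ a : π.ker, ((a * f a : π.ker) : G) = x⁻¹ * (x * a * (f a * y)) * y⁻¹ := fun a => by
      rw [Subgroup.coe_mul]; group
    show ((a * f a : π.ker) : G) = ((a' * f a' : π.ker) : G)
    rw [e1, e1, h]
  · intro e e' he he' h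
    obtain ⟨a, rfl⟩ := hy e he
    obtain ⟨a', rfl⟩ := hy e' he'
    rw [hc', hc'] at h
    rw [hf3 a a']
    have e1 : ∀ a : π.ker, f a * (y * x * a * (y * x)⁻¹) = (f a * y * (x * a)) * (y * x)⁻¹ :=
      fun a => by group
    rw [e1, e1, h]

theorem good_family' : ∃ β : Q → Q → G → G, ∀ p q, Good π p q (β p q) (β q p) := by
  classical
  let _ : LinearOrder Q := linearOrderOfSTO WellOrderingRel
  choose l hl using good_loop' π hs hfit
  choose b c hbc using good_pair' π hs hfit
  refine ⟨fun p q => if p = q then l p else if p < q then b p q else c q p, fun p q => ?_⟩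
  rcases lt_trichotomy p q with h | rfl | h
  · simp only [if_neg h.ne, if_neg h.ne', if_pos h, if_neg h.not_gt]
    exact hbc p q
  · simp only [if_true]
    exact hl p
  · simp only [if_neg h.ne, if_neg h.ne', if_pos h, if_neg h.not_gt]
    exact (hbc q p).symm

theorem sys_lift_abelian' (h : Sys Q) : Sys G := by
  obtain ⟨θ, k1, k2⟩ := h
  obtain ⟨β, hβ⟩ := good_family' π hs hfit
  refine ⟨fun x e => β (π e) (θ (π x) (π e)) e, fun x e => ?_, fun x e e' h => ?_⟩
  · obtain ⟨a1, a2⟩ := (hβ (π e) (θ (π x) (π e))).1 e rfl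
    show β (π (β (π e) (θ (π x) (π e)) e)) (θ (π (x * e)) (π (β (π e) (θ (π x) (π e)) e)))
      (β (π e) (θ (π x) (π e)) e) = e
    rw [a1, map_mul, k1, a2]
  · have h' : e * β (π e) (θ (π x) (π e)) e = e' * β (π e') (θ (π x) (π e')) e' := h
    have h4 := congrArg π h'
    rw [map_mul, map_mul, ((hβ _ _).1 e rfl).1, ((hβ _ _).1 e' rfl).1] at h4
    have h5 : π e = π e' := k2 (π x) h4
    rw [← h5] at h'
    exact (hβ _ _).2.2.1 e e' rfl h5.symm h'

end

theorem sys_lift_odd {G : Type} [Group G] [Finite G] (n : ℕ) :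
    ∀ (N : Subgroup G) [N.Normal], Nat.card N = n → Group.IsSolvable N → Odd (Nat.card N) →
      (∀ K M : Subgroup G, K.Normal → M.Normal → K ≤ M → M ≤ N → K.relIndex M = 3 →
        ⁅M, (⊤ : Subgroup G)⁆ ≤ K) → Sys (G ⧸ N) → Sys G := by
  induction n using Nat.strong_induction_on with
  | _ n ih =>
    intro N _ hn hsol hodd hch hS
    by_cases hN : N = ⊥
    · subst hN
      exact sys_congr QuotientGroup.quotientBot.symm hS
    · have hle0 : ⁅N, N⁆ ≤ N := Subgroup.commutator_le_left N N
      have hlt0 : ⁅N, N⁆ < N := by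
        have : Nontrivial N := (Subgroup.nontrivial_iff_ne_bot N).2 hN
        have h1 := Group.IsSolvable.commutator_lt_top_of_nontrivial N
        refine lt_of_le_of_ne hle0 fun h => h1.ne ?_
        apply Subgroup.map_injective N.subtype_injective
        rw [Subgroup.map_subtype_commutator, h, ← MonoidHom.range_eq_map, Subgroup.range_subtype]
      obtain ⟨K, ⟨hKn, hK1, hlt⟩, hmax⟩ := (Set.toFinite
        {K : Subgroup G | K.Normal ∧ ⁅N, N⁆ ≤ K ∧ K < N}).exists_maximal
        ⟨⁅N, N⁆, inferInstance, le_rfl, hlt0⟩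
      have hle : K ≤ N := hlt.le
      have hdvd : Nat.card K ∣ Nat.card N := Subgroup.card_dvd_of_le hle
      refine ih (Nat.card K) ?_ K rfl ?_ (hodd.of_dvd_nat hdvd)
        (fun K' M a b c d => hch K' M a b c (d.trans hle)) ?_
      · rw [← hn]
        exact Set.Finite.card_lt_card (Set.toFinite _) hlt
      · exact Group.isSolvable_of_isSolvable_injective (Subgroup.inclusion_injective hle)
      · let π : G ⧸ K →* G ⧸ N := QuotientGroup.map K N (MonoidHom.id G) hle
        have hπ : ∀ x : G, π (x : G ⧸ K) = (x : G ⧸ N) := fun x => rfl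
        have hker : ∀ a : π.ker, ∃ x : N, (a : G ⧸ K) = ((x : G) : G ⧸ K) := by
          rintro ⟨a, ha⟩
          obtain ⟨x, rfl⟩ := QuotientGroup.mk_surjective a
          rw [MonoidHom.mem_ker, hπ, QuotientGroup.eq_one_iff] at ha
          exact ⟨⟨x, ha⟩, rfl⟩
        have hs : Surjective π := by
          intro q
          obtain ⟨x, rfl⟩ := QuotientGroup.mk_surjective q
          exact ⟨x, rfl⟩
        have hcN : ∀ x ∈ N, ∀ y ∈ N, Commute (x : G ⧸ K) (y : G ⧸ K) := by
          intro x hx y hy
          show (x : G ⧸ K) * y = y * x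
          rw [← QuotientGroup.mk_mul, ← QuotientGroup.mk_mul, QuotientGroup.eq]
          have : (x * y)⁻¹ * (y * x) = ⁅y⁻¹, x⁻¹⁆ := by
            rw [commutatorElement_def]; group
          rw [this]
          exact hK1 (Subgroup.commutator_mem_commutator (N.inv_mem hy) (N.inv_mem hx))
        have hc : ∀ a b : π.ker, a * b = b * a := by
          intro a b
          obtain ⟨x, hx⟩ := hker a
          obtain ⟨y, hy⟩ := hker b
          apply Subtype.ext
          rw [Subgroup.coe_mul, Subgroup.coe_mul, hx, hy]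
          exact hcN x x.2 y y.2
        have h2 : ∀ a : π.ker, a * a = 1 → a = 1 := by
          intro a ha
          obtain ⟨x, hx⟩ := hker a
          have h1 : a ^ Nat.card N = 1 := by
            apply Subtype.ext
            rw [Subgroup.coe_pow, hx, ← QuotientGroup.mk_pow, ← Subgroup.coe_pow, pow_card_eq_one']
            rfl
          rw [← orderOf_eq_one_iff]
          exact Nat.eq_one_of_dvd_coprimes (Nat.coprime_two_right.2 hodd)
            (orderOf_dvd_of_pow_eq_one h1) (orderOf_dvd_of_pow_eq_one (by rw [pow_two, ha]))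
        let T : Subgroup G :=
          { carrier := {x | x ∈ N ∧ (x : G ⧸ K) ^ 3 = 1}
            one_mem' := ⟨N.one_mem, by simp⟩
            mul_mem' := fun {x y} hx hy => ⟨N.mul_mem hx.1 hy.1, by
              rw [QuotientGroup.mk_mul, (hcN x hx.1 y hy.1).mul_pow, hx.2, hy.2, one_mul]⟩
            inv_mem' := fun {x} hx => ⟨N.inv_mem hx.1, by
              rw [QuotientGroup.mk_inv, inv_pow, hx.2, inv_one]⟩ }
        have hTn : T.Normal := ⟨fun x hx g => ⟨‹N.Normal›.conj_mem x hx.1 g, by
          rw [QuotientGroup.mk_mul, QuotientGroup.mk_mul, QuotientGroup.mk_inv, conj_pow, hx.2]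
          simp⟩⟩
        have hKT : K ≤ T := fun x hx => ⟨hle hx, by
          rw [(QuotientGroup.eq_one_iff x).2 hx, one_pow]⟩
        have hTN : T ≤ N := fun x hx => hx.1
        rcases hTN.lt_or_eq with hT | hT
        · have hTK : T ≤ K := hmax ⟨hTn, hK1.trans hKT, hT⟩ hKT
          refine sys_lift_abelian π hs hc h2 (fun a ha => ?_) hS
          obtain ⟨x, hx⟩ := hker a
          apply Subtype.ext
          rw [hx]
          refine (QuotientGroup.eq_one_iff _).2 (hTK ⟨x.2, ?_⟩)
          rw [← hx, ← Subgroup.coe_pow, pow_succ, pow_two, ha]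
          rfl
        · have h3 : ∀ a : π.ker, a * a * a = 1 := by
            intro a
            obtain ⟨x, hx⟩ := hker a
            have hxT : (x : G) ∈ T := hT.ge x.2
            apply Subtype.ext
            have := hxT.2
            rw [← hx, pow_succ, pow_two] at this
            exact this
          refine sys_lift_abelian' π hs (fit_three π hc h2 h3 ?_) hS
          have hcard : Nat.card π.ker = K.relIndex N := by
            have e : π.ker = N.map (QuotientGroup.mk' K) := by
              ext a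
              obtain ⟨x, rfl⟩ := QuotientGroup.mk_surjective a
              rw [MonoidHom.mem_ker, hπ, QuotientGroup.eq_one_iff]
              constructor
              · exact fun h => ⟨x, h, rfl⟩
              · rintro ⟨y, hy, e⟩
                have := N.mul_mem hy (hle (QuotientGroup.eq.1 e))
                simpa using this
            rw [e, ← Subgroup.relIndex_ker, QuotientGroup.ker_mk']
          by_cases h : K.relIndex N = 3
          · refine Or.inr fun z a => ?_
            obtain ⟨x, hx⟩ := hker a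
            obtain ⟨g, rfl⟩ := QuotientGroup.mk_surjective z
            rw [hx, ← QuotientGroup.mk_inv, ← QuotientGroup.mk_mul, ← QuotientGroup.mk_mul,
              eq_comm, QuotientGroup.eq]
            have : (x : G)⁻¹ * (g * x * g⁻¹) = ⁅(x : G)⁻¹, g⁆ := by
              rw [commutatorElement_def]; group
            rw [this]
            exact hch K N hKn ‹_› hle le_rfl h
              (Subgroup.commutator_mem_commutator (N.inv_mem x.2) (Subgroup.mem_top g))
          · left
            obtain ⟨x, hxN, hxK⟩ := SetLike.exists_of_lt hlt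
            haveI : Fact (Nat.Prime 3) := ⟨by norm_num⟩
            let a : π.ker := ⟨x, by rw [MonoidHom.mem_ker, hπ, QuotientGroup.eq_one_iff]; exact hxN⟩
            have ha : orderOf a = 3 := orderOf_eq_prime (by rw [pow_succ, pow_two, h3])
              fun e => hxK ((QuotientGroup.eq_one_iff x).1 (congrArg Subtype.val e))
            have hd : 3 ∣ Nat.card π.ker := ha ▸ orderOf_dvd_natCard a
            have := Nat.le_of_dvd Nat.card_pos hd
            omega

end Pool.Agent.Lib.MP_2c654c_co
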