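import Mathlib
import Pool.Agent.Lib.MP_2c654c_co.Alg

set_option autoImplicit false

namespace Pool.Agent.Lib.MP_2c654c_co

open Function Polynomial

section
variable {K A G : Type} [Field K] [Finite K] [CharP K 2] [Ring A] [Algebra K A] [Group G]
  [Finite G]

omit [Finite K] in
theorem two_eq_zero_alg (K A : Type) [Field K] [CharP K 2] [Ring A] [Algebra K A] :
    (2 : A) = 0 := by
  have h : (2 : K) = 0 := CharTwo.two_eq_zero
  rw [← map_ofNat (algebraMap K A) 2, h, map_zero]

theorem blocks_lin (h : 32 ≤ Nat.card K) (ι : G →* A) (hι : Injective ι)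
    (hG : ∀ u : A, IsNilpotent (u - 1) → ∃ g, ι g = u) : Blocks G := by
  refine blocks_alg (F := K) (K := K) (d := 0) (β := 0) (τ := 1) (by simp) (by simp)
    (two_eq_zero_alg K A) (gad_field K h) ι hι ?_
  intro _ y hy _ p
  obtain ⟨u, hu⟩ := exists_cay' (0 : K) (Yp_nil hy p)
  obtain ⟨g, rfl⟩ := hG u (hu.nil (Yp_nil hy p))
  exact ⟨g, hu⟩

/-- The fixed field of the involution. -/
def fixF (K : Type) [Field K] [StarRing K] : Subfield K where
  carrier := {x | star x = x}
  mul_mem' := by
    intro a b ha hb
    simp only [Set.mem_ofPred_eq] at *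
    rw [star_mul', ha, hb]
  one_mem' := star_one K
  add_mem' := by
    intro a b ha hb
    simp only [Set.mem_ofPred_eq] at *
    rw [star_add, ha, hb]
  zero_mem' := star_zero K
  neg_mem' := by
    intro a ha
    simp only [Set.mem_ofPred_eq] at *
    rw [star_neg, ha]
  inv_mem' := by
    intro a ha
    simp only [Set.mem_ofPred_eq] at *
    rw [star_inv₀, ha]

theorem blocks_uni [StarRing K] [StarRing A] [StarModule K A] (ha : ∃ a : K, star a ≠ a)
    (h : 1024 ≤ Nat.card K) (ι : G →* A) (hι : Injective ι) (hU : ∀ g, star (ι g) * ι g = 1)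
    (hG : ∀ u : A, IsNilpotent (u - 1) → star u * u = 1 → ∃ g, ι g = u) : Blocks G := by
  obtain ⟨a, ha⟩ := ha
  have h2 : (2 : K) = 0 := CharTwo.two_eq_zero
  have ht : a + star a ≠ 0 := fun e => ha (by linear_combination e - a * h2)
  obtain ⟨d, hd⟩ : ∃ d : K, star d = d + 1 := by
    refine ⟨a / (a + star a), ?_⟩
    rw [star_div₀, star_add, star_star, add_comm (star a)]
    field_simp
    linear_combination (-a) * h2
  have hd' : star (d + 1) = d := by rw [star_add, star_one, hd]; linear_combination h2
  have hcard : 32 ≤ Nat.card (fixF K) := by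
    have hs : Surjective fun x : fixF K × fixF K => (x.1 : K) + x.2 * d := by
      intro x
      refine ⟨(⟨x - (x + star x) * d, ?_⟩, ⟨x + star x, ?_⟩), by simp⟩
      · show star _ = _
        rw [star_sub, star_mul', star_add, star_star, hd]
        linear_combination (-x) * h2
      · show star _ = _
        rw [star_add, star_star, add_comm]
    have h3 := Nat.card_le_card_of_surjective _ hs
    rw [Nat.card_prod] at h3
    by_contra h4
    have : Nat.card (fixF K) * Nat.card (fixF K) ≤ 31 * 31 := Nat.mul_le_mul (by omega) (by omega)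
    omega
  have hβ : (d + 1) * d ∈ fixF K := by
    show star _ = _
    rw [star_mul', hd, hd', mul_comm]
  refine blocks_alg (F := fixF K) (K := K) (d := d) (β := ⟨_, hβ⟩) (τ := 1) rfl
    (by rw [map_one]; linear_combination (-d) * h2)
    (two_eq_zero_alg K A) (gad_field _ hcard) ι hι ?_
  intro g y hy hc p
  have hs : ∀ {z u : A}, Cay d z u → (1 + (d + 1) • star z) * star u = 1 + d • star z := by
    intro z u h
    have := congrArg star h
    rw [star_mul, star_add, star_add, star_one, star_smul, star_smul, hd, hd'] at this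
    exact this
  have hsy : star y = y := by
    have e1 : (1 + (d + 1) • star y) * (1 + d • y) = (1 + d • star y) * (1 + (d + 1) • y) := by
      rw [← hs hc, ← hc, mul_assoc, ← mul_assoc (star (ι g)), hU, one_mul]
    simp only [mul_add, add_mul, one_mul, mul_one, smul_mul_assoc, mul_smul_comm, add_smul,
      one_smul, smul_add] at e1
    rw [← sub_eq_zero, ← sub_eq_zero.2 e1]
    abel
  have hsp : star (Yp y p) = Yp y p := by
    have : ∀ q : (fixF K)[X], star (aeval y q) = aeval y q := by
      intro q
      induction q using Polynomial.induction_on' with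
      | add p q hp hq => rw [map_add, star_add, hp, hq]
      | monomial n c =>
        rw [aeval_monomial, ← Algebra.smul_def]
        show star ((c : K) • y ^ n) = (c : K) • y ^ n
        rw [star_smul, star_pow, hsy, c.2]
    exact this _
  obtain ⟨u, hu⟩ := exists_cay' d (Yp_nil hy p)
  have hu1 : star u * u = 1 := by
    have e1 := hs hu
    rw [hsp] at e1
    apply (unit_one_add (Yp_nil hy p) (d + 1)).mul_left_cancel
    apply (unit_one_add (Yp_nil hy p) d).mul_right_cancel
    rw [← mul_assoc, e1, mul_assoc, hu, mul_one]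
    exact (((Commute.one_left _).add_left ((Commute.one_right _).add_right
      (((Commute.refl _).smul_left d).smul_right (d + 1))))).eq
  obtain ⟨g', rfl⟩ := hG u (hu.nil (Yp_nil hy p)) hu1
  exact ⟨g', hu⟩

omit [Finite G] in
theorem od_scalar (ι : G →* A) (hι : Injective ι) {z : G} {c : K}
    (h : ι z = algebraMap K A c) : (∀ x, Commute z x) ∧ Od z := by
  refine ⟨fun x => hι ?_, ?_⟩
  · rw [map_mul, map_mul, h]; exact Algebra.commutes _ _
  · by_cases hc : c = 0
    · have h1 : (1 : A) = 0 := by
        rw [← map_one ι, ← mul_inv_cancel z, map_mul, h, hc, map_zero, zero_mul]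
      have := subsingleton_of_zero_eq_one h1.symm
      rw [hι (Subsingleton.elim (ι z) (ι 1))]
      exact Od.one
    · let _ := Fintype.ofFinite K
      refine ⟨Fintype.card K - 1, ?_, hι ?_⟩
      · have h1 := FiniteField.even_card_of_char_two (F := K) (ringChar.eq K 2)
        have h2 : 0 < Fintype.card K := Fintype.card_pos
        exact ⟨Fintype.card K / 2 - 1, by omega⟩
      · rw [map_pow, h, ← map_pow, FiniteField.pow_card_sub_one_eq_one c hc, map_one, map_one]

theorem root_quot (hB : Blocks G) (ι : G →* A) (hι : Injective ι) (Z : Subgroup G) [Z.Normal]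
    (hZ : ∀ z ∈ Z, ∃ c : K, ι z = algebraMap K A c) : HasRoot (G ⧸ Z) := by
  refine root_of_sys (sys_of_blocks (blocks_quot (QuotientGroup.mk' Z)
    (QuotientGroup.mk'_surjective Z) (fun z hz => ?_) (fun z hz => ?_) hB))
  · obtain ⟨c, hc⟩ := hZ z ((QuotientGroup.eq_one_iff z).1 hz)
    exact (od_scalar ι hι hc).1
  · obtain ⟨c, hc⟩ := hZ z ((QuotientGroup.eq_one_iff z).1 hz)
    exact (od_scalar ι hι hc).2

omit [Finite K] in
theorem det_unip {n : ℕ} {u : Matrix (Fin n) (Fin n) K} (hu : IsNilpotent (u - 1)) :
    u.det = 1 := by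
  obtain ⟨k, hk⟩ := two_of_nil (two_eq_zero_alg K _) hu
  have h1 : u.det ^ 2 ^ k = 1 := by rw [← Matrix.det_pow, hk, Matrix.det_one]
  exact sub_eq_zero.1 (nil_of_two (CharTwo.two_eq_zero (R := K)) h1).eq_zero

theorem unit_of_unip {A : Type} [Ring A] {u : A} (hu : IsNilpotent (u - 1)) : IsUnit u := by
  simpa using hu.isUnit_add_one

end

end Pool.Agent.Lib.MP_2c654c_co
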