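import Mathlib
import Pool.Agent.Lib.MP_2c654c_co.Main

set_option autoImplicit false

namespace Pool.Agent.Lib.MP_2c654c_co.LinearUnitary

open Pool.Agent.Lib.MP_2c654c_co

/-- The Cayley table of `G` has a latin square root square: square roots `τ g` of the left
multiplications can be chosen so that every column has pairwise distinct entries. -/
def HasLatinRoot (G : Type) [Group G] : Prop :=
  ∃ τ : G → Equiv.Perm G,
    (∀ g : G, τ g * τ g = Equiv.mulLeft g) ∧ ∀ x : G, Function.Injective (fun g : G => τ g x)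

/-- General, special and projective linear groups over fields of characteristic 2. -/
def LinearCase : Prop :=
  ∀ (K : Type) [Field K] [Finite K] [CharP K 2] (n : ℕ), 32 ≤ Nat.card K →
    HasLatinRoot (GL (Fin n) K) ∧
    HasLatinRoot (Matrix.SpecialLinearGroup (Fin n) K) ∧
    HasLatinRoot (Matrix.ProjGenLinGroup (Fin n) K) ∧
    HasLatinRoot (Matrix.ProjectiveSpecialLinearGroup (Fin n) K)

/-- Groups between `SU(n)` and `U(n)`, modulo scalar matrices. -/
def UnitaryCase : Prop :=
  ∀ (K : Type) [Field K] [Finite K] [CharP K 2] [StarRing K] (n : ℕ),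
    (∃ a : K, star a ≠ a) → 1024 ≤ Nat.card K →
    ∀ (G : Subgroup (Matrix.unitaryGroup (Fin n) K)) (Z : Subgroup G) [Z.Normal],
      (∀ g : Matrix.unitaryGroup (Fin n) K, g.1.det = 1 → g ∈ G) →
      (∀ z ∈ Z, ∃ c : K, z.1.1 = Matrix.scalar (Fin n) c) → HasLatinRoot (G ⧸ Z)

/-- Groups of units of finite algebras containing all unipotent elements, modulo scalars. -/
def UnitsCase : Prop :=
  ∀ (K A : Type) [Field K] [Finite K] [CharP K 2] [Ring A] [Finite A] [Algebra K A],
    32 ≤ Nat.card K →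
    ∀ (G : Subgroup Aˣ) (Z : Subgroup G) [Z.Normal],
      (∀ u : Aˣ, IsNilpotent (u.1 - 1) → u ∈ G) →
      (∀ z ∈ Z, ∃ c : K, z.1.1 = algebraMap K A c) → HasLatinRoot (G ⧸ Z)

/-- Groups of unitary elements of finite star algebras containing all unipotent unitary
elements, modulo scalars. -/
def StarCase : Prop :=
  ∀ (K A : Type) [Field K] [Finite K] [CharP K 2] [StarRing K] [Ring A] [Finite A]
    [Algebra K A] [StarRing A] [StarModule K A],
    (∃ a : K, star a ≠ a) → 1024 ≤ Nat.card K →
    ∀ (G : Subgroup (unitary A)) (Z : Subgroup G) [Z.Normal],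
      (∀ u : unitary A, IsNilpotent (u.1 - 1) → u ∈ G) →
      (∀ z ∈ Z, ∃ c : K, z.1.1 = algebraMap K A c) → HasLatinRoot (G ⧸ Z)

theorem all_cases : LinearCase ∧ UnitaryCase ∧ UnitsCase ∧ StarCase := by
  have H4 : StarCase := by
    intro K A _ _ _ _ _ _ _ _ _ ha h G Z _ hG hZ
    let ι : G →* A := (unitary A).subtype.comp G.subtype
    have hι : Function.Injective ι := Subtype.val_injective.comp Subtype.val_injective
    refine root_quot (K := K) (blocks_uni ha h ι hι (fun g => g.1.2.1) fun u hu hu1 => ?_)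
      ι hι Z hZ
    have hu2 : u * star u = 1 := by
      obtain ⟨w, rfl⟩ := unit_of_unip hu
      rw [← Units.inv_eq_of_mul_eq_one_left hu1, Units.mul_inv]
    exact ⟨⟨⟨u, hu1, hu2⟩, hG _ hu⟩, rfl⟩
  refine ⟨fun K _ _ _ n h => ?_, fun K _ _ _ _ n ha h G Z _ hG hZ => ?_,
    fun K A _ _ _ _ _ _ h G Z _ hG hZ => ?_, H4⟩
  · have b1 : Blocks (GL (Fin n) K) :=
      blocks_lin h (Units.coeHom _) Units.val_injective fun u hu => unit_of_unip hu
    have b2 : Blocks (Matrix.SpecialLinearGroup (Fin n) K) :=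
      blocks_lin h Matrix.SpecialLinearGroup.coeMonoidHom
        Matrix.SpecialLinearGroup.coeMonoidHom_injective fun u hu => ⟨⟨u, det_unip hu⟩, rfl⟩
    refine ⟨root_of_sys (sys_of_blocks b1), root_of_sys (sys_of_blocks b2), ?_, ?_⟩
    · refine root_quot (K := K) b1 (Units.coeHom _) Units.val_injective _ fun z hz => ?_
      obtain ⟨c, hc⟩ := Matrix.GeneralLinearGroup.mem_center_iff_val_mem_range_scalar.1 hz
      exact ⟨c, hc.symm⟩
    · refine root_quot (K := K) b2 Matrix.SpecialLinearGroup.coeMonoidHom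
        Matrix.SpecialLinearGroup.coeMonoidHom_injective _ fun z hz => ?_
      obtain ⟨c, -, hc⟩ := Matrix.SpecialLinearGroup.mem_center_iff.1 hz
      exact ⟨c, hc.symm⟩
  · exact H4 K (Matrix (Fin n) (Fin n) K) ha h G Z (fun u hu => hG u (det_unip hu)) hZ
  · let ι : G →* A := (Units.coeHom A).comp G.subtype
    have hι : Function.Injective ι := Units.val_injective.comp Subtype.val_injective
    refine root_quot (K := K) (blocks_lin h ι hι fun u hu => ?_) ι hι Z hZ
    obtain ⟨w, rfl⟩ := unit_of_unip hu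
    exact ⟨⟨w, hG _ hu⟩, rfl⟩

end Pool.Agent.Lib.MP_2c654c_co.LinearUnitary
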