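import Mathlib
import Pool.Agent.Lib.MP_2c654c_co.Lift

set_option autoImplicit false

namespace Pool.Agent.Lib.MP_2c654c_co

def dig (n : ℕ) : Fin 5 := ⟨n % 5, Nat.mod_lt _ (by decide)⟩

def mkPerm (n : ℕ) : Equiv.Perm (Fin 5) :=
  Equiv.swap 0 (dig n) * Equiv.swap 1 (dig (n / 5)) * Equiv.swap 2 (dig (n / 25)) *
    Equiv.swap 3 (dig (n / 125))

def code (σ : Equiv.Perm (Fin 5)) : ℕ :=
  (σ 0).val + 5 * (σ 1).val + 25 * (σ 2).val + 125 * (σ 3).val

def look (T : ℕ) (σ : Equiv.Perm (Fin 5)) : Equiv.Perm (Fin 5) :=
  mkPerm ((T >>> (10 * code σ)) % 1024)

def tabT : ℕ := 0x1c76d400001e4002600000097e6600000000000000000000001f28d4000000000000001bf000007c0006f40078400000000000000000002300024e00263000009400000000000000025194c00000000000000000000009364f000008b400760000026a930000000000000000000000000000000000000000000000000025579400001d7001b6000009ba2c0000000000000000000000000000000000000000000000000000000000000000000000001cd8e000000000000000000000000026500000001ae7b8000022f0000000269001ef0000000000001c900000001ea0000000000001d90024900000000008ba2b0000000000000007a400001b40024600262000000000000000000000000000000000000026d974000000000000002440000099c0091c007a00000000001e29500000000000000000000000001cf000000024a78c000026400000000000000000000000000000000000000000000000000000000000000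000001b80000073a5600000001bc00000000000000000000000008d1d400000000007cc009a0009ac00001d20000000000000006e63b00000000000000000000000000000000000001ec001b3001b2000006c0000000000000001ed7200000000001e6002320000000000001d000000001c00000000000002570026c0000000252000008e9d1000000026f00000000000000000000000008f9b10000000000000000000000000000000000000000000000000000000000000000000000001d58e400001c1001eb00000915cb000000000000000000000000000000000000000000000000007c5ba00000978008cc00001da92c00000000000000000000008c5d60000000000000008dc00001be00248001b70000000000000000000073000728008f000002610000000000000006bdbb000000000000000000000023679c000023d001d3000009c1e000000000000000000000000000000000000000000000000000000000000000000000000000000000000000000000000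

def tabU : ℕ := 0x1b797400001b50022c000008b9e200000000000000000000001c78e8000000000000002380000091800924009b000000000000000000001e8002670026f0000099000000000000000268768000000000000000000000078e2b00000700009840000270920000000000000000000000000000000000000000000000000024a7bc00002390023d00000755e900000000000000000000000000000000000000000000000000000000000000000000000023098c00000000000000000000000024400000001ae8b400001bb0000000266001e50000000000001d100000002520000000000001eb001b40000000000739ca00000000000000097c0000254001ec0023300000000000000000000000000000000000001d96cc000000000000001ba000007840094c008dc0000000001b89380000000000000000000000001bc00000001e479800001d3000000000000000000000000000000000000000000000000000000000000000000024f000008edb900000001d000000000000000000000000007ca4b000000000075c007c00094400001f100000000000000079e3c00000000000000000000000000000000000001cb00231001f3000009940000000000000024d6c000000000025e001ea0000000000001be000000024c0000000000002360026a0000000234000008d5d800000001b100000000000000000000000006bdbd0000000000000000000000000000000000000000000000000000000000000000000000001bf7b80000255001d400000989b2000000000000000000000000000000000000000000000000008c9c1000006d8009ac00001c89580000000000000000000000735cc0000000000000009b4000026e0026900250000000000000000000008f8008bc0091c00001ed00000000000000075a6000000000000000000000001e095c00001c9002450000073dd200000000000000000000000000000000000000000000000000000000000000000000000000000000000000000000000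

theorem seed_check : ∀ σ : Equiv.Perm (Fin 5),
    look tabT (look tabT σ) = σ ∧ look tabU (σ * look tabT σ) = σ := by
  decide +kernel

theorem sys_S5 : Sys (Equiv.Perm (Fin 5)) := by
  refine ⟨fun _ a => look tabT a, fun _ a => (seed_check a).1, fun _ a a' h => ?_⟩
  have h' : a * look tabT a = a' * look tabT a' := h
  rw [← (seed_check a).2, h', (seed_check a').2]

end Pool.Agent.Lib.MP_2c654c_co
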